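import Pool.Agent.Q47.PosPoly.Defs

namespace Q47.PosPoly

open scoped LinearAlgebra.Projectivization Topology

/-- the point of projective space given by a vector (junk value at `0`) -/
noncomputable def pt (v : V) : PP :=
  if h : v ≠ 0 then Projectivization.mk ℝ v h
  else Projectivization.mk ℝ (fun _ => 1) (fun h => by simpa using congrFun h 0)

lemma pt_eq {v : V} (h : v ≠ 0) : pt v = Projectivization.mk ℝ v h := by
  unfold pt; rw [dif_pos h]

lemma pt_rep (x : PP) : pt x.rep = x := by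
  rw [pt_eq x.rep_nonzero, Projectivization.mk_rep]

lemma rep_pt {v : V} (h : v ≠ 0) : ∃ c : ℝ, c ≠ 0 ∧ (pt v).rep = c • v := by
  obtain ⟨a, ha⟩ := Projectivization.exists_smul_eq_mk_rep ℝ v h
  refine ⟨a, a.ne_zero, ?_⟩
  rw [pt_eq h, ← ha]; rfl

lemma pt_smul {v : V} (h : v ≠ 0) {c : ℝ} (hc : c ≠ 0) : pt (c • v) = pt v := by
  have h' : c • v ≠ 0 := smul_ne_zero hc h
  rw [pt_eq h, pt_eq h']
  exact (Projectivization.mk_eq_mk_iff' ℝ _ _ _ _).2 ⟨c, rfl⟩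

lemma plucker_smul (c : ℝ) (v : V) : plucker (c • v) = c ^ 2 * plucker v := by
  simp [plucker]; ring

lemma mem_Gr {v : V} (h : v ≠ 0) : pt v ∈ Gr ↔ plucker v = 0 := by
  obtain ⟨c, hc, hr⟩ := rep_pt h
  change plucker (pt v).rep = 0 ↔ _
  rw [hr, plucker_smul]
  simp [hc]

lemma mem_hyperplane {v : V} (h : v ≠ 0) (g : V →ₗ[ℝ] ℝ) : pt v ∈ hyperplane g ↔ g v = 0 := by
  obtain ⟨c, hc, hr⟩ := rep_pt h
  change g (pt v).rep = 0 ↔ _
  rw [hr, map_smul]
  simp [hc]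

lemma prod_rep {v : V} (h : v ≠ 0) (l₁ l₂ : V →ₗ[ℝ] ℝ) :
    ∃ c : ℝ, 0 < c ∧ l₁ (pt v).rep * l₂ (pt v).rep = c * (l₁ v * l₂ v) := by
  obtain ⟨c, hc, hr⟩ := rep_pt h
  refine ⟨c ^ 2, by positivity, ?_⟩
  rw [hr, map_smul, map_smul, smul_eq_mul, smul_eq_mul]; ring

lemma prod_nonneg_iff {v : V} (h : v ≠ 0) (l₁ l₂ : V →ₗ[ℝ] ℝ) :
    0 ≤ l₁ (pt v).rep * l₂ (pt v).rep ↔ 0 ≤ l₁ v * l₂ v := by
  obtain ⟨c, hc, hr⟩ := prod_rep h l₁ l₂
  rw [hr]; exact mul_nonneg_iff_of_pos_left hc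

lemma prod_pos_iff {v : V} (h : v ≠ 0) (l₁ l₂ : V →ₗ[ℝ] ℝ) :
    0 < l₁ (pt v).rep * l₂ (pt v).rep ↔ 0 < l₁ v * l₂ v := by
  obtain ⟨c, hc, hr⟩ := prod_rep h l₁ l₂
  rw [hr]; exact mul_pos_iff_of_pos_left hc

lemma isQuotientMap_mk' :
    Topology.IsQuotientMap (fun v : {v : V // v ≠ 0} => pt (v : V)) := by
  have : (fun v : {v : V // v ≠ 0} => pt (v : V)) =
      (Quotient.mk (projectivizationSetoid ℝ V)) := by
    funext v
    rw [pt_eq v.2]; rfl
  rw [this]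
  exact isQuotientMap_quotient_mk'

lemma isOpen_iff {U : Set PP} : IsOpen U ↔ IsOpen {v : {v : V // v ≠ 0} | pt (v : V) ∈ U} :=
  (isQuotientMap_mk'.isOpen_preimage (s := U)).symm

lemma continuous_lin (l : V →ₗ[ℝ] ℝ) : Continuous l := LinearMap.continuous_of_finiteDimensional l

lemma isOpen_prod (l₁ l₂ : V →ₗ[ℝ] ℝ) : IsOpen {x : PP | 0 < l₁ x.rep * l₂ x.rep} := by
  rw [isOpen_iff]
  have : {v : {v : V // v ≠ 0} | pt (v : V) ∈ {x : PP | 0 < l₁ x.rep * l₂ x.rep}} =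
      {v : {v : V // v ≠ 0} | 0 < l₁ (v : V) * l₂ (v : V)} := by
    ext v
    exact prod_pos_iff v.2 l₁ l₂
  rw [this]
  exact isOpen_lt continuous_const
    (((continuous_lin l₁).comp continuous_subtype_val).mul
      ((continuous_lin l₂).comp continuous_subtype_val))

lemma isClosed_prod (l₁ l₂ : V →ₗ[ℝ] ℝ) : IsClosed {x : PP | 0 ≤ l₁ x.rep * l₂ x.rep} := by
  have h := isOpen_prod (-l₁) l₂
  rw [← isOpen_compl_iff]
  have he : {x : PP | 0 ≤ l₁ x.rep * l₂ x.rep}ᶜ = {x : PP | 0 < (-l₁) x.rep * l₂ x.rep} := by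
    ext x
    show (¬ (0 ≤ l₁ x.rep * l₂ x.rep)) ↔ (0 < (-l₁) x.rep * l₂ x.rep)
    rw [not_le, LinearMap.neg_apply]
    constructor <;> intro h <;> nlinarith
  rw [he]
  exact h

lemma isClosed_Gr : IsClosed Gr := by
  rw [← isOpen_compl_iff, isOpen_iff]
  have : {v : {v : V // v ≠ 0} | pt (v : V) ∈ Grᶜ} =
      {v : {v : V // v ≠ 0} | plucker (v : V) ≠ 0} := by
    ext v
    exact not_congr (mem_Gr v.2)
  rw [this]
  have hc : Continuous plucker := by unfold plucker; fun_prop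
  exact isOpen_ne_fun (hc.comp continuous_subtype_val) continuous_const

lemma isClosed_hyperplane (g : V →ₗ[ℝ] ℝ) : IsClosed (hyperplane g) := by
  rw [← isOpen_compl_iff, isOpen_iff]
  have : {v : {v : V // v ≠ 0} | pt (v : V) ∈ (hyperplane g)ᶜ} =
      {v : {v : V // v ≠ 0} | g (v : V) ≠ 0} := by
    ext v
    exact not_congr (mem_hyperplane v.2 g)
  rw [this]
  exact isOpen_ne_fun ((continuous_lin g).comp continuous_subtype_val) continuous_const

lemma continuousAt_pt {v : V} (hv : v ≠ 0) : ContinuousAt pt v := by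
  have h1 : ContinuousOn pt {v : V | v ≠ 0} := by
    rw [continuousOn_iff_continuous_domRestrict]
    exact isQuotientMap_mk'.continuous
  exact h1.continuousAt (isOpen_ne.mem_nhds hv)

/-- a path in `V` starting at `v` with values eventually in `A` -/
lemma mem_closure_of_path {A : Set PP} {v : V} (hv : v ≠ 0) (f : ℝ → V)
    (hf : ContinuousWithinAt f (Set.Ioi 0) 0) (h0 : f 0 = v)
    (hA : ∀ᶠ t in 𝓝[>] (0 : ℝ), pt (f t) ∈ A) : pt v ∈ closure A := by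
  have h1 : Filter.Tendsto (fun t => pt (f t)) (𝓝[>] (0 : ℝ)) (𝓝 (pt v)) := by
    have h2 : Filter.Tendsto f (𝓝[>] (0 : ℝ)) (𝓝 v) := by
      have := hf.tendsto
      rwa [h0] at this
    exact (continuousAt_pt hv).tendsto.comp h2
  exact mem_closure_of_tendsto h1 hA

end Q47.PosPoly
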