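import Pool.Agent.Q47.PosPoly.Shape

namespace Q47.PosPoly

open scoped LinearAlgebra.Projectivization Topology

/-- index of the five facet forms among the seven forms -/
def emb : Fin 4 ⊕ Fin 1 → Fin 6 ⊕ Fin 1 := Sum.map ![0, 3, 2, 5] id

lemma emb_injective : Function.Injective emb := by decide

/-- the five components -/
def Comp (i : Fin 4 ⊕ Fin 1) : Set PP := Gr ∩ hyperplane (G (emb i))

lemma forall_idx {p : Fin 4 ⊕ Fin 1 → Prop} (h0 : p (Sum.inl 0)) (h1 : p (Sum.inl 1))
    (h2 : p (Sum.inl 2)) (h3 : p (Sum.inl 3)) (h4 : p (Sum.inr 0)) (i) : p i := by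
  rcases i with i | i
  · fin_cases i
    · exact h0
    · exact h1
    · exact h2
    · exact h3
  · fin_cases i
    exact h4

/-- the open set where all the other forms have the same sign -/
def Uset (i : Fin 4 ⊕ Fin 1) : Set PP :=
  {x | ∀ j k, j ≠ emb i → k ≠ emb i → 0 < G j x.rep * G k x.rep}

lemma isOpen_Uset (i : Fin 4 ⊕ Fin 1) : IsOpen (Uset i) := by
  have : Uset i = ⋂ j, ⋂ k, ⋂ (_ : j ≠ emb i), ⋂ (_ : k ≠ emb i),
      {x : PP | 0 < G j x.rep * G k x.rep} := by
    ext x
    simp only [Set.mem_iInter]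
    rfl
  rw [this]
  exact isOpen_iInter_of_finite fun j => isOpen_iInter_of_finite fun k =>
    isOpen_iInter_of_finite fun _ => isOpen_iInter_of_finite fun _ => isOpen_prod _ _

lemma Uset_subset (i : Fin 4 ⊕ Fin 1) : Uset i ∩ Comp i ⊆ S0 := by
  rintro x ⟨hU, hG, hH⟩
  refine ⟨fun j k => ?_, hG⟩
  have hH : G (emb i) x.rep = 0 := hH
  by_cases hj : j = emb i
  · rw [hj, hH, zero_mul]
  · by_cases hk : k = emb i
    · rw [hk, hH, mul_zero]
    · exact (hU j k hj hk).le

/-- positive representatives on `Uset` -/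
lemma exists_pos_rep {i : Fin 4 ⊕ Fin 1} {x : PP} (hx : x ∈ Uset i ∩ Comp i) :
    ∃ v : V, v ≠ 0 ∧ pt v = x ∧ plucker v = 0 ∧ G (emb i) v = 0 ∧
      ∀ j, j ≠ emb i → 0 < G j v := by
  obtain ⟨v, hv, rfl, hG⟩ := exists_nonneg_rep (Uset_subset i hx).1
  refine ⟨v, hv, rfl, (mem_Gr hv).1 hx.2.1, (mem_hyperplane hv _).1 hx.2.2, ?_⟩
  intro j hj
  refine (hG j).lt_of_ne fun h => ?_
  have := (prod_pos_iff hv _ _).1 (hx.1 j j hj hj)
  rw [← h] at this
  simp at this

/-- a path in `Gr \ S0` shows that a point is not interior -/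
lemma not_relInt_of_path {v : V} (hv : v ≠ 0) (f : ℝ → V)
    (hf : ContinuousWithinAt f (Set.Ioi 0) 0) (hf0 : f 0 = v)
    (hA : ∀ᶠ t in 𝓝[>] (0 : ℝ), f t ≠ 0 ∧ plucker (f t) = 0 ∧ ∃ j k, G j (f t) * G k (f t) < 0) :
    pt v ∉ relInt Gr S0 := by
  rintro ⟨_, U, hU, hvU, hUS⟩
  have h1 : pt v ∈ closure Uᶜ := by
    refine mem_closure_of_path hv f hf hf0 ?_
    filter_upwards [hA] with t ht
    obtain ⟨hne, hp, j, k, hjk⟩ := ht
    intro hmem
    have := (hUS ⟨hmem, (mem_Gr hne).2 hp⟩).1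
    have := (mem_P0 hne).1 this j k
    linarith
  rw [hU.isClosed_compl.closure_eq] at h1
  exact h1 hvU

lemma not_relInt (i : Fin 4 ⊕ Fin 1) {x : PP} (hx : x ∈ Uset i ∩ Comp i) :
    x ∉ relInt Gr S0 := by
  obtain ⟨v, hv, rfl, hp, hi, hpos⟩ := exists_pos_rep hx
  clear hx
  revert i
  -- in all cases except the last one, push one coordinate negative and correct `p₁₃`
  have key : ∀ (a b c d : ℝ → ℝ), Continuous a → Continuous b → Continuous c → Continuous d →
      a 0 = v 0 → b 0 = v 2 → c 0 = v 3 → d 0 = v 5 → 0 < v 4 →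
      (∀ t, 0 < t → a t * d t < 0 ∨ b t * c t < 0) → pt v ∉ relInt Gr S0 := by
    intro a b c d ha hb hc hd ha0 hb0 hc0 hd0 h4 hneg
    let f : ℝ → V := fun t => ![a t, (a t * d t + c t * b t) / v 4, b t, c t, v 4, d t]
    have hf : Continuous f := by
      refine continuous_pi fun k => ?_
      fin_cases k <;> simp [f] <;> fun_prop
    have hf0 : f 0 = v := by
      apply fn_ext <;> simp [f, ha0, hb0, hc0, hd0]
      unfold plucker at hp
      field_simp
      linarith
    refine not_relInt_of_path hv f hf.continuousWithinAt hf0 ?_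
    filter_upwards [self_mem_nhdsWithin] with t ht
    refine ⟨v0_ne (i := 4) (by simp [f]; exact h4.ne'), ?_, ?_⟩
    · simp [plucker, f]; field_simp; ring
    · rcases hneg t ht with h | h
      · exact ⟨Sum.inl 0, Sum.inl 5, by rw [G_inl, G_inl]; simpa [f] using h⟩
      · exact ⟨Sum.inl 2, Sum.inl 3, by rw [G_inl, G_inl]; simpa [f] using h⟩
  apply forall_idx
  · intro hi hpos
    have hi : v 0 = 0 := hi
    refine key (fun t => -t) (fun _ => v 2) (fun _ => v 3) (fun _ => v 5) (by fun_prop)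
      (by fun_prop) (by fun_prop) (by fun_prop) (by simp [hi]) rfl rfl rfl
      (hpos (Sum.inl 4) (by decide)) fun t ht => Or.inl ?_
    have : 0 < v 5 := hpos (Sum.inl 5) (by decide)
    nlinarith
  · intro hi hpos
    have hi : v 3 = 0 := hi
    refine key (fun _ => v 0) (fun _ => v 2) (fun t => -t) (fun _ => v 5) (by fun_prop)
      (by fun_prop) (by fun_prop) (by fun_prop) rfl rfl (by simp [hi]) rfl
      (hpos (Sum.inl 4) (by decide)) fun t ht => Or.inr ?_
    have : 0 < v 2 := hpos (Sum.inl 2) (by decide)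
    nlinarith
  · intro hi hpos
    have hi : v 2 = 0 := hi
    refine key (fun _ => v 0) (fun t => -t) (fun _ => v 3) (fun _ => v 5) (by fun_prop)
      (by fun_prop) (by fun_prop) (by fun_prop) rfl (by simp [hi]) rfl rfl
      (hpos (Sum.inl 4) (by decide)) fun t ht => Or.inr ?_
    have : 0 < v 3 := hpos (Sum.inl 3) (by decide)
    nlinarith
  · intro hi hpos
    have hi : v 5 = 0 := hi
    refine key (fun _ => v 0) (fun _ => v 2) (fun _ => v 3) (fun t => -t) (by fun_prop)
      (by fun_prop) (by fun_prop) (by fun_prop) rfl rfl rfl (by simp [hi])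
      (hpos (Sum.inl 4) (by decide)) fun t ht => Or.inl ?_
    have : 0 < v 0 := hpos (Sum.inl 0) (by decide)
    nlinarith
  · intro hi hpos
    have hi : h0 v = 0 := hi
    have hG : ∀ j, 0 ≤ G j v := by
      intro j
      by_cases hj : j = emb (Sum.inr 0)
      · rw [hj]; exact hi.ge
      · exact (hpos j hj).le
    have p0 : 0 < v 0 := hpos (Sum.inl 0) (by decide)
    have p1 : 0 < v 1 := hpos (Sum.inl 1) (by decide)
    have p5 : 0 < v 5 := hpos (Sum.inl 5) (by decide)
    rcases lt_or_gt_of_ne (ne_of_nonneg hv hG hp) with hlt | hlt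
    · refine not_relInt_of_path hv (tor v) (tor_cont v).continuousWithinAt (tor_zero v) ?_
      have h1 : ∀ᶠ t in 𝓝[>] (0 : ℝ), v 0 < v 5 / (1 + t) := by
        have hc : ContinuousAt (fun t : ℝ => v 5 / (1 + t)) 0 := by fun_prop (disch := norm_num)
        have : ∀ᶠ t in 𝓝 (0 : ℝ), v 0 < v 5 / (1 + t) :=
          hc.eventually_const_lt (by simpa using hlt)
        exact this.filter_mono nhdsWithin_le_nhds
      filter_upwards [h1, self_mem_nhdsWithin] with t ht htp
      have htp : 0 < t := htp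
      refine ⟨v0_ne (i := 1) (by simp [tor]; exact p1.ne'), by rw [tor_plucker v htp, hp],
        Sum.inr 0, Sum.inl 1, ?_⟩
      rw [G_inr, G_inl, tor_h0 v htp, hi]
      have e1 : tor v t 1 = v 1 := by simp [tor]
      rw [e1, zero_add]
      have : 4 * t * (v 0 - v 5 / (1 + t)) < 0 :=
        mul_neg_of_pos_of_neg (by linarith) (by linarith)
      exact mul_neg_of_neg_of_pos this p1
    · refine not_relInt_of_path hv (tor' v) (tor'_cont v).continuousWithinAt (tor'_zero v) ?_
      have h1 : ∀ᶠ t in 𝓝[>] (0 : ℝ), v 5 < v 0 / (1 + t) := by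
        have hc : ContinuousAt (fun t : ℝ => v 0 / (1 + t)) 0 := by fun_prop (disch := norm_num)
        have : ∀ᶠ t in 𝓝 (0 : ℝ), v 5 < v 0 / (1 + t) :=
          hc.eventually_const_lt (by simpa using hlt)
        exact this.filter_mono nhdsWithin_le_nhds
      filter_upwards [h1, self_mem_nhdsWithin] with t ht htp
      have htp : 0 < t := htp
      refine ⟨v0_ne (i := 1) (by simp [tor']; exact p1.ne'), by rw [tor'_plucker v htp, hp],
        Sum.inr 0, Sum.inl 1, ?_⟩
      rw [G_inr, G_inl, tor'_h0 v htp, hi]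
      have e1 : tor' v t 1 = v 1 := by simp [tor']
      rw [e1, zero_add]
      have : 4 * t * (v 5 - v 0 / (1 + t)) < 0 :=
        mul_neg_of_pos_of_neg (by linarith) (by linarith)
      exact mul_neg_of_neg_of_pos this p1

lemma Uset_subset_bdry (i : Fin 4 ⊕ Fin 1) : Uset i ∩ Comp i ⊆ bdry S0 :=
  fun _ hx => ⟨Uset_subset i hx, not_relInt i hx⟩

lemma bdry_subset : bdry S0 ⊆ ⋃ i, Comp i := by
  rintro x ⟨hx, hn⟩
  obtain ⟨v, hv, rfl, hG⟩ := exists_nonneg_rep hx.1
  have hp : plucker v = 0 := (mem_Gr hv).1 hx.2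
  by_contra hcon
  apply hn
  rw [Set.mem_iUnion, not_exists] at hcon
  have hpos : ∀ i, 0 < G (emb i) v := by
    intro i
    refine (hG _).lt_of_ne fun h => hcon i ⟨hx.2, (mem_hyperplane hv _).2 h.symm⟩
  have p0 : 0 < v 0 := hpos (Sum.inl 0)
  have p3 : 0 < v 3 := hpos (Sum.inl 1)
  have p2 : 0 < v 2 := hpos (Sum.inl 2)
  have p5 : 0 < v 5 := hpos (Sum.inl 3)
  have ph : 0 < h0 v := hpos (Sum.inr 0)
  have hprod : 0 < v 1 * v 4 := by
    unfold plucker at hp
    nlinarith [mul_pos p0 p5, mul_pos p3 p2]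
  have q1 : 0 ≤ v 1 := hG (Sum.inl 1)
  have q4 : 0 ≤ v 4 := hG (Sum.inl 4)
  have p1 : 0 < v 1 := q1.lt_of_ne fun h => by rw [← h] at hprod; simp at hprod
  have p4 : 0 < v 4 := q4.lt_of_ne fun h => by rw [← h] at hprod; simp at hprod
  exact mem_relInt hv (G_all (p := fun x => 0 < x) (forall_fin6 p0 p1 p2 p3 p4 p5) ph) hp

/-- witnesses -/
noncomputable def wit : Fin 4 ⊕ Fin 1 → V :=
  Sum.elim ![![0, 1, 1, 1, 1, 100], ![100, 10, 1, 0, 10, 1], ![100, 10, 0, 1, 10, 1],
    ![100, 1, 1, 1, 1, 0]] (fun _ => ![8, 3, 1, 1, 3, 1])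

lemma wit_ne (i) : wit i ≠ 0 := by
  revert i
  apply forall_idx
  · exact v0_ne (i := 1) (by simp [wit])
  · exact v0_ne (i := 1) (by simp [wit])
  · exact v0_ne (i := 1) (by simp [wit])
  · exact v0_ne (i := 1) (by simp [wit])
  · exact v0_ne (i := 1) (by simp [wit])

lemma wit_plucker (i) : plucker (wit i) = 0 := by
  revert i
  apply forall_idx <;> simp [wit, plucker] <;> norm_num

lemma wit_zero (i) : G (emb i) (wit i) = 0 := by
  revert i
  apply forall_idx
  · rfl
  · rfl
  · rfl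
  · rfl
  · change h0 _ = 0
    rw [h0_apply]; simp [wit]; norm_num

lemma forall_idx7 {p : Fin 6 ⊕ Fin 1 → Prop} (h0 : p (Sum.inl 0)) (h1 : p (Sum.inl 1))
    (h2 : p (Sum.inl 2)) (h3 : p (Sum.inl 3)) (h4 : p (Sum.inl 4)) (h5 : p (Sum.inl 5))
    (h6 : p (Sum.inr 0)) (i) : p i := by
  rcases i with i | i
  · exact forall_fin6 (p := fun i => p (Sum.inl i)) h0 h1 h2 h3 h4 h5 i
  · fin_cases i
    exact h6

lemma wit_pos (i) : ∀ j, j ≠ emb i → 0 < G j (wit i) := by
  revert i
  apply forall_idx <;> apply forall_idx7 <;>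
    first
    | (intro h; exact absurd rfl h)
    | (intro _; rw [G_inl]; simp [wit])
    | (intro _; rw [G_inr, h0_apply]; simp [wit]; norm_num)

lemma wit_mem (i) : pt (wit i) ∈ Uset i ∩ Comp i := by
  refine ⟨fun j k hj hk => ?_, (mem_Gr (wit_ne i)).2 (wit_plucker i),
    (mem_hyperplane (wit_ne i) _).2 (wit_zero i)⟩
  exact (prod_pos_iff (wit_ne i) _ _).2 (mul_pos (wit_pos i j hj) (wit_pos i k hk))

lemma wit_not_mem {i j} (hij : i ≠ j) : pt (wit i) ∉ Comp j := by
  rintro ⟨_, h⟩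
  have h1 := (mem_hyperplane (wit_ne i) _).1 h
  have h2 := wit_pos i (emb j) (fun h => hij (emb_injective h.symm))
  exact h2.ne' h1

noncomputable def linData (i : Fin 4 ⊕ Fin 1) : LinData (G (emb i)) :=
  match i with
  | Sum.inl 0 => lin12
  | Sum.inl 1 => lin14
  | Sum.inl 2 => lin23
  | Sum.inl 3 => lin34
  | Sum.inr 0 => linH

lemma comp_irred (i) : IsZariskiIrreducible (Comp i) :=
  (linData i).param.irreducible (zclosed_inter zclosed_Gr (zclosed_hyperplane _))
    ⟨_, (wit_mem i).2⟩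

lemma comp_subset {i j} (h : Comp i ⊆ Comp j) : i = j := by
  by_contra hij
  exact wit_not_mem hij (h (wit_mem i).2)

lemma zariskiClosure_bdry : zariskiClosure (bdry S0) = ⋃ i, Comp i := by
  apply Set.Subset.antisymm
  · apply Set.sInter_subset_of_mem
    refine ⟨?_, bdry_subset⟩
    have := zclosed_biUnion Finset.univ Comp (fun i => (comp_irred i).1)
    simpa using this
  · intro x hx
    obtain ⟨i, hi⟩ := Set.mem_iUnion.1 hx
    rw [zariskiClosure, Set.mem_sInter]
    rintro Y ⟨hY, hYb⟩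
    exact (linData i).param.dense (isOpen_Uset i) ⟨_, wit_mem i⟩ hY
      ((Uset_subset_bdry i).trans hYb) hi

/-- the facets -/
def facet (i : Fin 4 ⊕ Fin 1) : Set PP := closure (relInt (Comp i) (Comp i ∩ S0))

lemma facets_eq : facets S0 = Set.range facet := by
  ext F
  constructor
  · rintro ⟨C, hC, rfl⟩
    rw [zariskiClosure_bdry, component_iff Comp comp_irred (fun i j h => comp_subset h)] at hC
    obtain ⟨i, rfl⟩ := hC
    exact ⟨i, rfl⟩
  · rintro ⟨i, rfl⟩
    refine ⟨Comp i, ?_, rfl⟩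
    rw [zariskiClosure_bdry, component_iff Comp comp_irred (fun i j h => comp_subset h)]
    exact ⟨i, rfl⟩

lemma wit_mem_facet (i) : pt (wit i) ∈ facet i := by
  apply subset_closure
  exact ⟨(wit_mem i).2, Uset i, isOpen_Uset i, (wit_mem i).1,
    fun x hx => ⟨hx.2, Uset_subset i hx⟩⟩

lemma facet_subset (i) : facet i ⊆ Comp i := by
  apply closure_minimal
  · intro x hx; exact hx.1
  · exact isClosed_Gr.inter (isClosed_hyperplane _)

lemma facet_injective : Function.Injective facet := by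
  intro i j hij
  by_contra hne
  have h1 := wit_mem_facet i
  rw [hij] at h1
  exact wit_not_mem hne (facet_subset j h1)

/-- the numbering of the facets -/
noncomputable def facetEquiv : (Fin 4 ⊕ Fin 1) ≃ facets S0 :=
  (Equiv.ofInjective facet facet_injective).trans (Equiv.setCongr facets_eq.symm)

lemma facetEquiv_apply (i) : (facetEquiv i : Set PP) = facet i := rfl

end Q47.PosPoly
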