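import Pool.Agent.Q47.PosPoly.Zariski

namespace Q47.PosPoly

open scoped LinearAlgebra.Projectivization Topology
open MvPolynomial

lemma zclosed_union {A B : Set PP} (hA : IsZariskiClosed A) (hB : IsZariskiClosed B) :
    IsZariskiClosed (A ∪ B) := by
  obtain ⟨TA, hTA, rfl⟩ := hA
  obtain ⟨TB, hTB, rfl⟩ := hB
  refine ⟨{p | ∃ f ∈ TA, ∃ g ∈ TB, p = f * g}, ?_, ?_⟩
  · rintro p ⟨f, hf, g, hg, rfl⟩
    obtain ⟨d, hd⟩ := hTA f hf
    obtain ⟨e, he⟩ := hTB g hg
    exact ⟨d + e, hd.mul he⟩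
  · ext x
    constructor
    · rintro (h | h) p ⟨f, hf, g, hg, rfl⟩
      · rw [map_mul, h f hf, zero_mul]
      · rw [map_mul, h g hg, mul_zero]
    · intro h
      by_contra hcon
      rw [Set.mem_union, not_or] at hcon
      obtain ⟨h1, h2⟩ := hcon
      have h1 : ¬ ∀ f ∈ TA, eval x.rep f = 0 := h1
      have h2 : ¬ ∀ f ∈ TB, eval x.rep f = 0 := h2
      push Not at h1 h2
      obtain ⟨f, hf, hf0⟩ := h1
      obtain ⟨g, hg, hg0⟩ := h2
      have := h (f * g) ⟨f, hf, g, hg, rfl⟩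
      rw [map_mul] at this
      rcases mul_eq_zero.1 this with h | h
      · exact hf0 h
      · exact hg0 h

lemma zclosed_inter {A B : Set PP} (hA : IsZariskiClosed A) (hB : IsZariskiClosed B) :
    IsZariskiClosed (A ∩ B) := by
  obtain ⟨TA, hTA, rfl⟩ := hA
  obtain ⟨TB, hTB, rfl⟩ := hB
  refine ⟨TA ∪ TB, ?_, ?_⟩
  · rintro p (hp | hp)
    · exact hTA p hp
    · exact hTB p hp
  · ext x
    constructor
    · rintro ⟨h1, h2⟩ p (hp | hp)
      · exact h1 p hp
      · exact h2 p hp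
    · intro h
      exact ⟨fun f hf => h f (Or.inl hf), fun f hf => h f (Or.inr hf)⟩

lemma zclosed_empty : IsZariskiClosed ∅ := by
  refine ⟨{1}, ?_, ?_⟩
  · rintro p rfl
    exact ⟨0, isHomogeneous_one _ _⟩
  · ext x
    constructor
    · intro h; exact h.elim
    · intro h
      have := h 1 rfl
      simp at this

lemma zclosed_Gr : IsZariskiClosed Gr := by
  refine ⟨{X 0 * X 5 - X 1 * X 4 + X 3 * X 2}, ?_, ?_⟩
  · rintro p rfl
    refine ⟨2, ?_⟩
    have h : ∀ i j : Fin 6, (X i * X j : MvPolynomial (Fin 6) ℝ).IsHomogeneous 2 := fun i j =>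
      (isHomogeneous_X ℝ i).mul (isHomogeneous_X ℝ j)
    exact ((h 0 5).sub (h 1 4)).add (h 3 2)
  · ext x
    simp [Gr, plucker]

lemma lin_sum (g : V →ₗ[ℝ] ℝ) (v : V) : g v = ∑ k, g (Pi.single k 1) * v k := by
  conv_lhs => rw [← LinearMap.sum_single_apply (fun _ => ℝ) v]
  rw [map_sum]
  refine Finset.sum_congr rfl fun k _ => ?_
  have : (Pi.single k (v k) : V) = (v k) • (Pi.single k (1 : ℝ)) := by
    ext j
    simp [Pi.single_apply]
  change g (Pi.single k (v k)) = _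
  rw [this, map_smul, smul_eq_mul, mul_comm]

lemma zclosed_hyperplane (g : V →ₗ[ℝ] ℝ) : IsZariskiClosed (hyperplane g) := by
  refine ⟨{∑ k, C (g (Pi.single k 1)) * X k}, ?_, ?_⟩
  · rintro p rfl
    exact ⟨1, IsHomogeneous.sum _ _ _ fun k _ => (isHomogeneous_X ℝ k).C_mul _⟩
  · ext x
    simp only [Set.mem_singleton_iff, forall_eq, hyperplane]
    change g x.rep = 0 ↔ eval x.rep _ = 0
    rw [lin_sum g x.rep, map_sum]
    simp

lemma zclosed_biUnion {ι : Type} [DecidableEq ι] (s : Finset ι) (C : ι → Set PP)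
    (hC : ∀ i, IsZariskiClosed (C i)) : IsZariskiClosed (⋃ i ∈ s, C i) := by
  induction s using Finset.induction_on with
  | empty => simpa using zclosed_empty
  | insert a s _ ih =>
    rw [Finset.set_biUnion_insert]
    exact zclosed_union (hC a) ih

lemma irred_biUnion {ι : Type} [DecidableEq ι] (s : Finset ι) (C : ι → Set PP)
    (hC : ∀ i, IsZariskiClosed (C i)) {D : Set PP} (hD : IsZariskiIrreducible D)
    (hDs : D ⊆ ⋃ i ∈ s, C i) : ∃ i ∈ s, D ⊆ C i := by
  induction s using Finset.induction_on with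
  | empty =>
    obtain ⟨x, hx⟩ := hD.2.1
    simpa using hDs hx
  | insert a s _ ih =>
    rw [Finset.set_biUnion_insert] at hDs
    rcases hD.2.2 _ _ (hC a) (zclosed_biUnion s C hC) hDs with h | h
    · exact ⟨a, Finset.mem_insert_self _ _, h⟩
    · obtain ⟨i, hi, h'⟩ := ih h
      exact ⟨i, Finset.mem_insert_of_mem hi, h'⟩

theorem component_iff {ι : Type} [Fintype ι] [DecidableEq ι] (C : ι → Set PP)
    (hC : ∀ i, IsZariskiIrreducible (C i)) (hne : ∀ i j, C i ⊆ C j → i = j) (D : Set PP) :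
    IsComponent D (⋃ i, C i) ↔ ∃ i, D = C i := by
  have hU : ∀ D, IsZariskiIrreducible D → D ⊆ ⋃ i, C i → ∃ i, D ⊆ C i := by
    intro D hD hs
    have : D ⊆ ⋃ i ∈ (Finset.univ : Finset ι), C i := by simpa using hs
    obtain ⟨i, _, h⟩ := irred_biUnion Finset.univ C (fun i => (hC i).1) hD this
    exact ⟨i, h⟩
  constructor
  · rintro ⟨h1, h2, h3⟩
    obtain ⟨i, hi⟩ := hU D h1 h2
    exact ⟨i, (h3 (C i) (hC i) hi (Set.subset_iUnion C i)).symm⟩
  · rintro ⟨i, rfl⟩
    refine ⟨hC i, Set.subset_iUnion C i, fun D hD h1 h2 => ?_⟩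
    obtain ⟨j, hj⟩ := hU D hD h2
    have hij := hne i j (h1.trans hj)
    subst hij
    exact Set.Subset.antisymm hj h1

end Q47.PosPoly
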