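import Pool.Agent.Q47.PosPoly.Comp

namespace Q47.PosPoly

open scoped LinearAlgebra.Projectivization Topology
open MvPolynomial

lemma rank_one (a b c d : ℝ) (h : a * d = b * c) :
    ∃ x₀ x₁ y₀ y₁ : ℝ, a = x₀ * y₀ ∧ b = x₀ * y₁ ∧ c = x₁ * y₀ ∧ d = x₁ * y₁ := by
  by_cases ha : a = 0
  · subst ha
    have h0 : b * c = 0 := by linarith
    by_cases hb : b = 0
    · exact ⟨0, 1, c, d, by ring, by rw [hb]; ring, by ring, by ring⟩
    · have hc : c = 0 := by
        rcases mul_eq_zero.1 h0 with h | h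
        · exact absurd h hb
        · exact h
      exact ⟨b, d, 0, 1, by ring, by ring, by rw [hc]; ring, by ring⟩
  · refine ⟨a, c, 1, b / a, by ring, by field_simp, by ring, ?_⟩
    field_simp
    linarith

/-- quadratic monomials parametrising the rank one cone -/
noncomputable def Mon : Fin 5 → MvPolynomial (Fin 5) ℝ :=
  ![X 0 * X 2, X 0 * X 3, X 1 * X 2, X 1 * X 3, X 4]

/-- A linear isomorphism of the cone `w₀w₃ = w₁w₂` with the cone over `Gr ∩ {g = 0}`. -/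
structure LinData (g : V →ₗ[ℝ] ℝ) where
  /-- the matrix -/
  L : Fin 6 → Fin 5 → ℝ
  h1 : ∀ w : Fin 5 → ℝ, w 0 * w 3 = w 1 * w 2 →
    plucker (fun k => ∑ j, L k j * w j) = 0 ∧ g (fun k => ∑ j, L k j * w j) = 0
  h2 : ∀ v : V, plucker v = 0 → g v = 0 → ∃ w : Fin 5 → ℝ, w 0 * w 3 = w 1 * w 2 ∧
    (fun k => ∑ j, L k j * w j) = v

/-- the parametrisation coming from a `LinData` -/
noncomputable def LinData.param {g : V →ₗ[ℝ] ℝ} (D : LinData g) : Param (Gr ∩ hyperplane g) where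
  N := 5
  Φ k := ∑ j, C (D.L k j) * Mon j
  mem y hy := by
    have he : (fun k => eval y (∑ j, C (D.L k j) * Mon j)) =
        fun k => ∑ j, D.L k j * eval y (Mon j) := by
      funext k; simp
    rw [he] at hy ⊢
    have hw : eval y (Mon 0) * eval y (Mon 3) = eval y (Mon 1) * eval y (Mon 2) := by
      simp [Mon]; ring
    obtain ⟨h1, h2⟩ := D.h1 (fun j => eval y (Mon j)) hw
    exact ⟨(mem_Gr hy).2 h1, (mem_hyperplane hy g).2 h2⟩
  surj v hv hC := by
    obtain ⟨h1, h2⟩ := hC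
    obtain ⟨w, hw, hwv⟩ := D.h2 v ((mem_Gr hv).1 h1) ((mem_hyperplane hv g).1 h2)
    obtain ⟨x₀, x₁, y₀, y₁, ha, hb, hc, hd⟩ := rank_one (w 0) (w 1) (w 2) (w 3) hw
    refine ⟨![x₀, x₁, y₀, y₁, w 4], ?_⟩
    rw [← hwv]
    funext k
    rw [map_sum]
    refine Finset.sum_congr rfl fun j _ => ?_
    rw [map_mul, eval_C]
    congr 1
    fin_cases j
    · simp [Mon, ha]
    · simp [Mon, hb]
    · simp [Mon, hc]
    · simp [Mon, hd]
    · simp [Mon]

/-- the additional linear form -/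
noncomputable def h0 : V →ₗ[ℝ] ℝ :=
  (4 : ℝ) • coord 0 + (4 : ℝ) • coord 5 - (5 : ℝ) • coord 1 - (5 : ℝ) • coord 4
    - (3 : ℝ) • coord 3 - (3 : ℝ) • coord 2

lemma coord_apply (i : Fin 6) (v : V) : coord i v = v i := rfl

lemma h0_apply (v : V) :
    h0 v = 4 * v 0 + 4 * v 5 - 5 * v 1 - 5 * v 4 - 3 * v 3 - 3 * v 2 := by
  simp [h0, coord_apply]

lemma fn_ext {v w : V} (h0 : v 0 = w 0) (h1 : v 1 = w 1) (h2 : v 2 = w 2) (h3 : v 3 = w 3)
    (h4 : v 4 = w 4) (h5 : v 5 = w 5) : v = w := by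
  funext k
  fin_cases k
  · exact h0
  · exact h1
  · exact h2
  · exact h3
  · exact h4
  · exact h5

noncomputable def lin12 : LinData (coord 0) where
  L := ![![0, 0, 0, 0, 0], ![1, 0, 0, 0, 0], ![0, 0, 1, 0, 0], ![0, 1, 0, 0, 0],
    ![0, 0, 0, 1, 0], ![0, 0, 0, 0, 1]]
  h1 w hw := by
    simp [plucker, coord_apply, Fin.sum_univ_five]
    linarith
  h2 v h h' := by
    rw [coord_apply] at h'
    refine ⟨![v 1, v 3, v 2, v 4, v 5], ?_, ?_⟩
    · simp [plucker, h'] at h ⊢; linarith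
    · apply fn_ext <;> simp [Fin.sum_univ_five, h']

noncomputable def lin34 : LinData (coord 5) where
  L := ![![0, 0, 0, 0, 1], ![1, 0, 0, 0, 0], ![0, 0, 1, 0, 0], ![0, 1, 0, 0, 0],
    ![0, 0, 0, 1, 0], ![0, 0, 0, 0, 0]]
  h1 w hw := by
    simp [plucker, coord_apply, Fin.sum_univ_five]
    linarith
  h2 v h h' := by
    rw [coord_apply] at h'
    refine ⟨![v 1, v 3, v 2, v 4, v 0], ?_, ?_⟩
    · simp [plucker, h'] at h ⊢; linarith
    · apply fn_ext <;> simp [Fin.sum_univ_five, h']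

noncomputable def lin14 : LinData (coord 3) where
  L := ![![1, 0, 0, 0, 0], ![0, 1, 0, 0, 0], ![0, 0, 0, 0, 1], ![0, 0, 0, 0, 0],
    ![0, 0, 1, 0, 0], ![0, 0, 0, 1, 0]]
  h1 w hw := by
    simp [plucker, coord_apply, Fin.sum_univ_five]
    linarith
  h2 v h h' := by
    rw [coord_apply] at h'
    refine ⟨![v 0, v 1, v 4, v 5, v 2], ?_, ?_⟩
    · simp [plucker, h'] at h ⊢; linarith
    · apply fn_ext <;> simp [Fin.sum_univ_five, h']

noncomputable def lin23 : LinData (coord 2) where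
  L := ![![1, 0, 0, 0, 0], ![0, 1, 0, 0, 0], ![0, 0, 0, 0, 0], ![0, 0, 0, 0, 1],
    ![0, 0, 1, 0, 0], ![0, 0, 0, 1, 0]]
  h1 w hw := by
    simp [plucker, coord_apply, Fin.sum_univ_five]
    linarith
  h2 v h h' := by
    rw [coord_apply] at h'
    refine ⟨![v 0, v 1, v 4, v 5, v 3], ?_, ?_⟩
    · simp [plucker, h'] at h ⊢; linarith
    · apply fn_ext <;> simp [Fin.sum_univ_five, h']

noncomputable def linH : LinData h0 where
  L := ![![5/4, 3/4, 3/16, 5/16, 1], ![1, 0, 0, 0, 5/4], ![0, 0, 1/4, 0, -3/4],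
    ![0, 1, 0, 0, -3/4], ![0, 0, 0, 1/4, 5/4], ![0, 0, 0, 0, 1]]
  h1 w hw := by
    simp only [plucker, h0_apply, Fin.sum_univ_five]
    constructor
    · simp
      nlinarith
    · simp
      ring
  h2 v h h' := by
    rw [h0_apply] at h'
    refine ⟨![v 1 - 5/4 * v 5, v 3 + 3/4 * v 5, 4 * v 2 + 3 * v 5, 4 * v 4 - 5 * v 5, v 5],
      ?_, ?_⟩
    · simp [plucker] at h ⊢
      linear_combination (-4) * h + v 5 * h'
    · apply fn_ext <;> simp [Fin.sum_univ_five]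
      · linarith
      all_goals ring

end Q47.PosPoly
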