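import Mathlib

/-!
# Positive polytopes in the real Grassmannian `Gr(2,4)`: definitions

Everything lives in the real projective space `PP = ℙ⁵(ℝ)` with homogeneous coordinates
`(p₁₂, p₁₃, p₂₃, p₁₄, p₂₄, p₃₄)` (indexed by `0, …, 5` in this order) and the quotient topology.
-/

namespace Q47.PosPoly

open scoped LinearAlgebra.Projectivization

/-- `ℝ⁶`, the space of Plücker vectors `(p₁₂, p₁₃, p₂₃, p₁₄, p₂₄, p₃₄)`. -/
abbrev V : Type := Fin 6 → ℝ

/-- The real projective space `ℙ⁵(ℝ)`. -/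
abbrev PP : Type := ℙ ℝ V

/-- The Euclidean (quotient) topology of `ℙ⁵(ℝ)`. -/
instance : TopologicalSpace PP :=
  inferInstanceAs (TopologicalSpace (Quotient (projectivizationSetoid ℝ V)))

/-- The Plücker quadric `p₁₂p₃₄ - p₁₃p₂₄ + p₁₄p₂₃`. -/
def plucker (v : V) : ℝ := v 0 * v 5 - v 1 * v 4 + v 3 * v 2

/-- The real Grassmannian `Gr(2,4)` in its Plücker embedding. -/
def Gr : Set PP := {x | plucker x.rep = 0}

/-- The coordinate linear forms. -/
def coord (i : Fin 6) : V →ₗ[ℝ] ℝ := LinearMap.proj i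

/-- The closed positive simplex `ℙ⁵_{≥0}` (all products of two coordinates are `≥ 0`). -/
def posSimplex : Set PP := {x | ∀ i j : Fin 6, 0 ≤ x.rep i * x.rep j}

/-- The hyperplane of `ℙ⁵(ℝ)` given by a linear form. -/
def hyperplane (g : V →ₗ[ℝ] ℝ) : Set PP := {x | g x.rep = 0}

/-- The part of `P` in the affine chart `ℓ ≠ 0`, realised in the affine hyperplane `ℓ = 1`
of `ℝ⁶`. -/
def slice (ℓ : V →ₗ[ℝ] ℝ) (P : Set PP) : Set V :=
  {v | ℓ v = 1 ∧ ∃ hv : v ≠ 0, Projectivization.mk ℝ v hv ∈ P}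

/-- `P` is a convex full-dimensional polytope in the affine chart `ℓ ≠ 0`: it lies in the chart,
its affine realisation is the convex hull of finitely many points, and these points
affinely span the chart (equivalently, they span `ℝ⁶` linearly). -/
def IsPolytopeIn (ℓ : V →ₗ[ℝ] ℝ) (P : Set PP) : Prop :=
  (∀ x ∈ P, ℓ x.rep ≠ 0) ∧
  (∃ F : Finset V, slice ℓ P = convexHull ℝ (F : Set V)) ∧
  Submodule.span ℝ (slice ℓ P) = ⊤

/-- The hyperplane `g = 0` is the hyperplane of a facet of the polytope `P` (in the chart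
`ℓ ≠ 0`): the polytope lies on one side of it, and meets it in a set spanning it. -/
def IsFacetForm (ℓ : V →ₗ[ℝ] ℝ) (P : Set PP) (g : V →ₗ[ℝ] ℝ) : Prop :=
  g ≠ 0 ∧ ((∀ v ∈ slice ℓ P, 0 ≤ g v) ∨ (∀ v ∈ slice ℓ P, g v ≤ 0)) ∧
  Submodule.span ℝ {v | v ∈ slice ℓ P ∧ g v = 0} = LinearMap.ker g

/-- `P` is a simple polytope in `ℙ⁵(ℝ)` whose facets lie on the pairwise different hyperplanes
`g i = 0`, one facet on each of them, and the arrangement of these hyperplanes is simple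
(any at most six of the linear forms are linearly independent). -/
def IsSimplePolytope {ι : Type} [Fintype ι] (g : ι → V →ₗ[ℝ] ℝ) (P : Set PP) : Prop :=
  (∃ ℓ : V →ₗ[ℝ] ℝ, IsPolytopeIn ℓ P ∧ (∀ i, IsFacetForm ℓ P (g i)) ∧
    ∀ f, IsFacetForm ℓ P f → ∃ i, ∃ c : ℝ, f = c • g i) ∧
  ∀ s : Finset ι, s.card ≤ 6 → LinearIndependent ℝ (fun i : s => g i)

/-- The interior of `S ∩ X` relative to `X`. -/
def relInt (X S : Set PP) : Set PP := {x | x ∈ X ∧ ∃ U : Set PP, IsOpen U ∧ x ∈ U ∧ U ∩ X ⊆ S}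

/-- Zariski-closed subsets of `ℙ⁵(ℝ)`: common zero sets of homogeneous polynomials. -/
def IsZariskiClosed (X : Set PP) : Prop :=
  ∃ T : Set (MvPolynomial (Fin 6) ℝ), (∀ f ∈ T, ∃ d : ℕ, f.IsHomogeneous d) ∧
    X = {x | ∀ f ∈ T, MvPolynomial.eval x.rep f = 0}

/-- The Zariski closure. -/
def zariskiClosure (X : Set PP) : Set PP := ⋂₀ {Y | IsZariskiClosed Y ∧ X ⊆ Y}

/-- Irreducible Zariski-closed sets. -/
def IsZariskiIrreducible (X : Set PP) : Prop :=
  IsZariskiClosed X ∧ X.Nonempty ∧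
    ∀ A B, IsZariskiClosed A → IsZariskiClosed B → X ⊆ A ∪ B → X ⊆ A ∨ X ⊆ B

/-- The irreducible components of `Y`: the maximal irreducible closed subsets. -/
def IsComponent (C Y : Set PP) : Prop :=
  IsZariskiIrreducible C ∧ C ⊆ Y ∧ ∀ D, IsZariskiIrreducible D → C ⊆ D → D ⊆ Y → D = C

/-- The boundary `∂S` of `S` in `Gr(2,4)`. -/
def bdry (S : Set PP) : Set PP := S \ relInt Gr S

/-- The facets of a closed subset `S` of `Gr(2,4)`: for every irreducible component `C` of the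
Zariski closure of `∂S`, the closure in `C` of the interior of `C ∩ S` in `C`. -/
def facets (S : Set PP) : Set (Set PP) :=
  {F | ∃ C, IsComponent C (zariskiClosure (bdry S)) ∧ F = closure (relInt C (C ∩ S))}

/-- The linear forms `p₁₂, p₁₄, p₂₃, p₃₄`. -/
def adj (i : Fin 4) : V →ₗ[ℝ] ℝ := coord (![0, 3, 2, 5] i)

/-- `S` is a positive polytope in `Gr(2,4)` with `m` additional hyperplanes: `S = P ∩ Gr(2,4)`,
where `P ⊆ ℙ⁵_{≥0}` is a simple polytope with `m + 6` facets, six on the hyperplanes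
`p_{ij} = 0` and `m` on hyperplanes `h i = 0`; `S` is closed and is the closure of its interior
in `Gr(2,4)`; and `S` has exactly `m + 4` facets, one on each of the hyperplanes `p₁₂ = 0`,
`p₁₄ = 0`, `p₂₃ = 0`, `p₃₄ = 0` and `h i = 0`. -/
def IsPositivePolytope (m : ℕ) (S : Set PP) : Prop :=
  ∃ (h : Fin m → V →ₗ[ℝ] ℝ) (P : Set PP),
    IsSimplePolytope (Sum.elim coord h : Fin 6 ⊕ Fin m → V →ₗ[ℝ] ℝ) P ∧
    P ⊆ posSimplex ∧ S = P ∩ Gr ∧ IsClosed S ∧ S = closure (relInt Gr S) ∧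
    ∃ e : (Fin 4 ⊕ Fin m) ≃ facets S, ∀ i, ((e i : Set PP)).Nonempty ∧
      (e i : Set PP) ⊆ hyperplane ((Sum.elim adj h : Fin 4 ⊕ Fin m → V →ₗ[ℝ] ℝ) i)

end Q47.PosPoly
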