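import Pool.Agent.Q47.PosPoly.Bdry

namespace Q47.PosPoly

open scoped LinearAlgebra.Projectivization Topology

/-- the sum of the coordinates -/
noncomputable def l0 : V →ₗ[ℝ] ℝ := ∑ i, coord i

lemma l0_apply (v : V) : l0 v = v 0 + v 1 + v 2 + v 3 + v 4 + v 5 := by
  simp [l0, coord_apply, Fin.sum_univ_six]

lemma l0_pos {v : V} (hv : v ≠ 0) (h : ∀ i : Fin 6, 0 ≤ v i) : 0 < l0 v := by
  have h1 := l0_apply v
  by_contra hcon
  push Not at hcon
  rw [h1] at hcon
  apply hv
  have := h 0; have := h 1; have := h 2; have := h 3; have := h 4; have := h 5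
  apply fn_ext
  · change v 0 = 0; linarith
  · change v 1 = 0; linarith
  · change v 2 = 0; linarith
  · change v 3 = 0; linarith
  · change v 4 = 0; linarith
  · change v 5 = 0; linarith

lemma mem_slice {v : V} : v ∈ slice l0 P0 ↔ l0 v = 1 ∧ ∀ i, 0 ≤ G i v := by
  constructor
  · rintro ⟨h1, hv, h2⟩
    refine ⟨h1, ?_⟩
    rw [← pt_eq hv, mem_P0 hv] at h2
    obtain ⟨k, hk⟩ : ∃ k : Fin 6, 0 < v k := by
      by_contra hcon
      push Not at hcon
      rw [l0_apply] at h1
      have := hcon 0; have := hcon 1; have := hcon 2; have := hcon 3; have := hcon 4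
      have := hcon 5
      linarith
    intro i
    exact nonneg_of_mul_nonneg_right (h2 (Sum.inl k) i) hk
  · rintro ⟨h1, h2⟩
    have hv : v ≠ 0 := by
      rintro rfl
      rw [map_zero] at h1
      exact zero_ne_one h1
    refine ⟨h1, hv, ?_⟩
    rw [← pt_eq hv, mem_P0 hv]
    exact fun i j => mul_nonneg (h2 i) (h2 j)

lemma mem_slice' {v : V} : v ∈ slice l0 P0 ↔ l0 v = 1 ∧ (∀ i : Fin 6, 0 ≤ v i) ∧ 0 ≤ h0 v := by
  rw [mem_slice]
  constructor
  · rintro ⟨h1, h2⟩
    exact ⟨h1, fun i => h2 (Sum.inl i), h2 (Sum.inr 0)⟩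
  · rintro ⟨h1, h2, h3⟩
    exact ⟨h1, G_all (p := fun x => 0 ≤ x) h2 h3⟩

/-- the vertices -/
noncomputable def vert : Fin 10 → V :=
  ![![1, 0, 0, 0, 0, 0], ![0, 0, 0, 0, 0, 1],
    ![5/9, 4/9, 0, 0, 0, 0], ![5/9, 0, 0, 0, 4/9, 0], ![3/7, 0, 4/7, 0, 0, 0],
    ![3/7, 0, 0, 4/7, 0, 0],
    ![0, 4/9, 0, 0, 0, 5/9], ![0, 0, 0, 0, 4/9, 5/9], ![0, 0, 4/7, 0, 0, 3/7],
    ![0, 0, 0, 4/7, 0, 3/7]]

lemma forall_fin10 {p : Fin 10 → Prop} (h0 : p 0) (h1 : p 1) (h2 : p 2) (h3 : p 3) (h4 : p 4)
    (h5 : p 5) (h6 : p 6) (h7 : p 7) (h8 : p 8) (h9 : p 9) (i) : p i := by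
  fin_cases i
  · exact h0
  · exact h1
  · exact h2
  · exact h3
  · exact h4
  · exact h5
  · exact h6
  · exact h7
  · exact h8
  · exact h9

lemma vert_mem (i) : vert i ∈ slice l0 P0 := by
  revert i
  apply forall_fin10 <;> rw [mem_slice'] <;>
    refine ⟨by rw [l0_apply]; simp [vert] <;> norm_num,
      by apply forall_fin6 <;> simp [vert] <;> norm_num,
      by rw [h0_apply]; simp [vert] <;> norm_num⟩

lemma convex_slice : Convex ℝ (slice l0 P0) := by
  intro x hx y hy a b ha hb hab
  rw [mem_slice] at hx hy ⊢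
  refine ⟨?_, fun i => ?_⟩
  · rw [map_add, map_smul, map_smul, hx.1, hy.1]; simpa using hab
  · rw [map_add, map_smul, map_smul]
    exact add_nonneg (mul_nonneg ha (hx.2 i)) (mul_nonneg hb (hy.2 i))

lemma slice_eq : slice l0 P0 = convexHull ℝ ((Finset.univ.image vert : Finset V) : Set V) := by
  apply Set.Subset.antisymm
  · intro v hv
    rw [mem_slice'] at hv
    obtain ⟨h1, h2, h3⟩ := hv
    have hs : 0 < v 0 + v 5 := by
      rw [h0_apply] at h3
      rw [l0_apply] at h1
      have := h2 1; have := h2 2; have := h2 3; have := h2 4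
      nlinarith
    have n0 := h2 0
    have n1 := h2 1
    have n2 := h2 2
    have n3 := h2 3
    have n4 := h2 4
    have n5 := h2 5
    let w : Fin 10 → ℝ := ![v 0 / (v 0 + v 5) * (h0 v / 4), v 5 / (v 0 + v 5) * (h0 v / 4),
      9 / 4 * (v 1 * (v 0 / (v 0 + v 5))), 9 / 4 * (v 4 * (v 0 / (v 0 + v 5))),
      7 / 4 * (v 2 * (v 0 / (v 0 + v 5))), 7 / 4 * (v 3 * (v 0 / (v 0 + v 5))),
      9 / 4 * (v 1 * (v 5 / (v 0 + v 5))), 9 / 4 * (v 4 * (v 5 / (v 0 + v 5))),
      7 / 4 * (v 2 * (v 5 / (v 0 + v 5))), 7 / 4 * (v 3 * (v 5 / (v 0 + v 5)))]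
    have hw : ∑ i, w i • vert i = v := by
      have hne : v 0 + v 5 ≠ 0 := hs.ne'
      apply fn_ext
      · simp [Fin.sum_univ_succ, w, vert, h0_apply]; field_simp; ring
      · simp [Fin.sum_univ_succ, w, vert, h0_apply]; field_simp
      · simp [Fin.sum_univ_succ, w, vert, h0_apply]; field_simp
      · simp [Fin.sum_univ_succ, w, vert, h0_apply]; field_simp
      · simp [Fin.sum_univ_succ, w, vert, h0_apply]; field_simp
      · simp [Fin.sum_univ_succ, w, vert, h0_apply]; field_simp; ring
    have hw1 : ∑ i, w i = 1 := by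
      have := congrArg l0 hw
      rw [map_sum, h1] at this
      rw [← this]
      refine Finset.sum_congr rfl fun i _ => ?_
      rw [map_smul, (mem_slice.1 (vert_mem i)).1]; simp
    rw [← hw]
    apply (convex_convexHull ℝ _).sum_mem
    · intro i _
      revert i
      apply forall_fin10 <;> intro _ <;> simp [w] <;> positivity
    · exact hw1
    · intro i _
      apply subset_convexHull
      simp
  · apply convexHull_min _ convex_slice
    intro v hv
    simp only [Finset.coe_image, Finset.coe_univ, Set.image_univ, Set.mem_range] at hv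
    obtain ⟨i, rfl⟩ := hv
    exact vert_mem i

/-- basis vectors -/
noncomputable def ee (k : Fin 6) : V := Pi.single k 1

lemma mem_of_ee {W : Submodule ℝ V} {v : V} (h : ∀ k, v k ≠ 0 → ee k ∈ W) : v ∈ W := by
  have : v = ∑ k, v k • ee k := by
    funext j
    simp [ee, Pi.single_apply]
  rw [this]
  apply Submodule.sum_mem
  intro k _
  by_cases hk : v k = 0
  · rw [hk, zero_smul]; exact W.zero_mem
  · exact W.smul_mem _ (h k hk)

lemma span_slice : Submodule.span ℝ (slice l0 P0) = ⊤ := by
  rw [eq_top_iff]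
  intro v _
  have hm : ∀ i, vert i ∈ Submodule.span ℝ (slice l0 P0) := fun i =>
    Submodule.subset_span (vert_mem i)
  apply mem_of_ee
  intro k hk
  clear hk
  revert k
  apply forall_fin6
  · have : ee 0 = vert 0 := by apply fn_ext <;> simp [ee, vert]
    rw [this]; exact hm 0
  · have : ee 1 = (9/4 : ℝ) • vert 2 - (5/4 : ℝ) • vert 0 := by
      apply fn_ext <;> simp [ee, vert]
    rw [this]; exact Submodule.sub_mem _ (Submodule.smul_mem _ _ (hm 2)) (Submodule.smul_mem _ _ (hm 0))
  · have : ee 2 = (7/4 : ℝ) • vert 4 - (3/4 : ℝ) • vert 0 := by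
      apply fn_ext <;> simp [ee, vert]
    rw [this]; exact Submodule.sub_mem _ (Submodule.smul_mem _ _ (hm 4)) (Submodule.smul_mem _ _ (hm 0))
  · have : ee 3 = (7/4 : ℝ) • vert 5 - (3/4 : ℝ) • vert 0 := by
      apply fn_ext <;> simp [ee, vert]
    rw [this]; exact Submodule.sub_mem _ (Submodule.smul_mem _ _ (hm 5)) (Submodule.smul_mem _ _ (hm 0))
  · have : ee 4 = (9/4 : ℝ) • vert 3 - (5/4 : ℝ) • vert 0 := by
      apply fn_ext <;> simp [ee, vert]
    rw [this]; exact Submodule.sub_mem _ (Submodule.smul_mem _ _ (hm 3)) (Submodule.smul_mem _ _ (hm 0))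
  · have : ee 5 = vert 1 := by apply fn_ext <;> simp [ee, vert]
    rw [this]; exact hm 1

/-- the face of a form -/
def face (g : V →ₗ[ℝ] ℝ) : Set V := {v | v ∈ slice l0 P0 ∧ g v = 0}

lemma comb_mem {W : Submodule ℝ V} {a b c : V} (s t : ℝ) (ha : a ∈ W) (hb : b ∈ W)
    (hc : c = s • a + t • b) : c ∈ W := by
  rw [hc]; exact W.add_mem (W.smul_mem _ ha) (W.smul_mem _ hb)

/-- a face containing `vert 0` -/
lemma face_ee0 {g : V →ₗ[ℝ] ℝ} (h0' : g (vert 0) = 0) (k : Fin 6) :
    (k = 0 ∨ (k = 1 ∧ g (vert 2) = 0) ∨ (k = 2 ∧ g (vert 4) = 0) ∨ (k = 3 ∧ g (vert 5) = 0) ∨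
      (k = 4 ∧ g (vert 3) = 0)) → ee k ∈ Submodule.span ℝ (face g) := by
  have hm : ∀ i, g (vert i) = 0 → vert i ∈ Submodule.span ℝ (face g) := fun i hi =>
    Submodule.subset_span ⟨vert_mem i, hi⟩
  rintro (rfl | ⟨rfl, h⟩ | ⟨rfl, h⟩ | ⟨rfl, h⟩ | ⟨rfl, h⟩)
  · have : ee 0 = vert 0 := by apply fn_ext <;> simp [ee, vert]
    rw [this]; exact hm 0 h0'
  · exact comb_mem (9/4) (-5/4) (hm 2 h) (hm 0 h0') (by apply fn_ext <;> (simp [ee, vert]; try norm_num))
  · exact comb_mem (7/4) (-3/4) (hm 4 h) (hm 0 h0') (by apply fn_ext <;> (simp [ee, vert]; try norm_num))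
  · exact comb_mem (7/4) (-3/4) (hm 5 h) (hm 0 h0') (by apply fn_ext <;> (simp [ee, vert]; try norm_num))
  · exact comb_mem (9/4) (-5/4) (hm 3 h) (hm 0 h0') (by apply fn_ext <;> (simp [ee, vert]; try norm_num))

/-- a face containing `vert 1` -/
lemma face_ee1 {g : V →ₗ[ℝ] ℝ} (h0' : g (vert 1) = 0) (k : Fin 6) :
    (k = 5 ∨ (k = 1 ∧ g (vert 6) = 0) ∨ (k = 2 ∧ g (vert 8) = 0) ∨ (k = 3 ∧ g (vert 9) = 0) ∨
      (k = 4 ∧ g (vert 7) = 0)) → ee k ∈ Submodule.span ℝ (face g) := by
  have hm : ∀ i, g (vert i) = 0 → vert i ∈ Submodule.span ℝ (face g) := fun i hi =>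
    Submodule.subset_span ⟨vert_mem i, hi⟩
  rintro (rfl | ⟨rfl, h⟩ | ⟨rfl, h⟩ | ⟨rfl, h⟩ | ⟨rfl, h⟩)
  · have : ee 5 = vert 1 := by apply fn_ext <;> simp [ee, vert]
    rw [this]; exact hm 1 h0'
  · exact comb_mem (9/4) (-5/4) (hm 6 h) (hm 1 h0') (by apply fn_ext <;> (simp [ee, vert]; try norm_num))
  · exact comb_mem (7/4) (-3/4) (hm 8 h) (hm 1 h0') (by apply fn_ext <;> (simp [ee, vert]; try norm_num))
  · exact comb_mem (7/4) (-3/4) (hm 9 h) (hm 1 h0') (by apply fn_ext <;> (simp [ee, vert]; try norm_num))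
  · exact comb_mem (9/4) (-5/4) (hm 7 h) (hm 1 h0') (by apply fn_ext <;> (simp [ee, vert]; try norm_num))

lemma coord_vert (k : Fin 6) (i : Fin 10) : coord k (vert i) = vert i k := rfl

lemma ee_mem_face : ∀ k j : Fin 6, j ≠ k → ee j ∈ Submodule.span ℝ (face (coord k)) := by
  apply forall_fin6
  · apply forall_fin6 <;> intro hjk
    · exact absurd rfl hjk
    all_goals (apply face_ee1 (coord_vert _ _); simp [coord_apply, vert])
  · apply forall_fin6 <;> intro hjk
    · apply face_ee0 (coord_vert _ _); simp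
    · exact absurd rfl hjk
    · apply face_ee0 (coord_vert _ _); simp [coord_apply, vert]
    · apply face_ee0 (coord_vert _ _); simp [coord_apply, vert]
    · apply face_ee0 (coord_vert _ _); simp [coord_apply, vert]
    · apply face_ee1 (coord_vert _ _); simp
  · apply forall_fin6 <;> intro hjk
    · apply face_ee0 (coord_vert _ _); simp
    · apply face_ee0 (coord_vert _ _); simp [coord_apply, vert]
    · exact absurd rfl hjk
    · apply face_ee0 (coord_vert _ _); simp [coord_apply, vert]
    · apply face_ee0 (coord_vert _ _); simp [coord_apply, vert]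
    · apply face_ee1 (coord_vert _ _); simp
  · apply forall_fin6 <;> intro hjk
    · apply face_ee0 (coord_vert _ _); simp
    · apply face_ee0 (coord_vert _ _); simp [coord_apply, vert]
    · apply face_ee0 (coord_vert _ _); simp [coord_apply, vert]
    · exact absurd rfl hjk
    · apply face_ee0 (coord_vert _ _); simp [coord_apply, vert]
    · apply face_ee1 (coord_vert _ _); simp
  · apply forall_fin6 <;> intro hjk
    · apply face_ee0 (coord_vert _ _); simp
    · apply face_ee0 (coord_vert _ _); simp [coord_apply, vert]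
    · apply face_ee0 (coord_vert _ _); simp [coord_apply, vert]
    · apply face_ee0 (coord_vert _ _); simp [coord_apply, vert]
    · exact absurd rfl hjk
    · apply face_ee1 (coord_vert _ _); simp
  · apply forall_fin6 <;> intro hjk
    · apply face_ee0 (coord_vert _ _); simp
    · apply face_ee0 (coord_vert _ _); simp [coord_apply, vert]
    · apply face_ee0 (coord_vert _ _); simp [coord_apply, vert]
    · apply face_ee0 (coord_vert _ _); simp [coord_apply, vert]
    · apply face_ee0 (coord_vert _ _); simp [coord_apply, vert]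
    · exact absurd rfl hjk

lemma span_face_coord (k : Fin 6) :
    Submodule.span ℝ (face (coord k)) = LinearMap.ker (coord k) := by
  apply le_antisymm
  · rw [Submodule.span_le]
    rintro v ⟨_, hv⟩
    exact hv
  · intro v hv
    have hv : v k = 0 := hv
    apply mem_of_ee
    intro j hj
    have hjk : j ≠ k := fun h => hj (by rw [h]; exact hv)
    exact ee_mem_face k j hjk

lemma span_face_h0 : Submodule.span ℝ (face h0) = LinearMap.ker h0 := by
  apply le_antisymm
  · rw [Submodule.span_le]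
    rintro v ⟨_, hv⟩
    exact hv
  · intro v hv
    have hv : h0 v = 0 := hv
    rw [h0_apply] at hv
    have hm : ∀ i, h0 (vert i) = 0 → vert i ∈ Submodule.span ℝ (face h0) := fun i hi =>
      Submodule.subset_span ⟨vert_mem i, hi⟩
    have hm' : ∀ i, 2 ≤ i → vert i ∈ Submodule.span ℝ (face h0) := by
      apply forall_fin10
      · intro h; exact absurd h (by decide)
      · intro h; exact absurd h (by decide)
      all_goals (intro _; apply hm; rw [h0_apply]; simp [vert]; norm_num)
    have he : v = (9/4 * v 1) • vert 2 + (9/4 * v 4) • vert 3 + (7/4 * v 2) • vert 4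
        + (7/4 * v 3) • vert 5 + (9/5 * v 5) • vert 6 + (-9/5 * v 5) • vert 2 := by
      apply fn_ext
      · simp [vert]; linarith
      · simp [vert]; linarith
      · simp [vert]; ring
      · simp [vert]; ring
      · simp [vert]; ring
      · simp [vert]; linarith
    rw [he]
    refine Submodule.add_mem _ (Submodule.add_mem _ (Submodule.add_mem _ (Submodule.add_mem _
      (Submodule.add_mem _ ?_ ?_) ?_) ?_) ?_) ?_ <;>
    exact Submodule.smul_mem _ _ (hm' _ (by decide))

lemma G_ne_zero (i) : G i ≠ 0 := by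
  intro h
  have h1 : ∀ v, G i v = 0 := fun v => by rw [h]; rfl
  rcases i with i | i
  · have := h1 (ee i)
    rw [G_inl] at this
    simp [ee] at this
  · have := h1 (ee 0)
    rw [G_inr, h0_apply] at this
    simp [ee] at this

lemma facetForm (i) : IsFacetForm l0 P0 (G i) := by
  refine ⟨G_ne_zero i, Or.inl fun v hv => (mem_slice.1 hv).2 i, ?_⟩
  rcases i with i | i
  · exact span_face_coord i
  · exact span_face_h0

lemma facetForm_unique (f : V →ₗ[ℝ] ℝ) (hf : IsFacetForm l0 P0 f) :
    ∃ i, ∃ c : ℝ, f = c • G i := by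
  obtain ⟨hf0, hsign, hspan⟩ := hf
  -- some `G i` vanishes on the face
  have h1 : ∃ i, ∀ v, v ∈ slice l0 P0 → f v = 0 → G i v = 0 := by
    by_contra hcon
    push Not at hcon
    choose w hw1 hw2 hw3 using hcon
    have hb : ∀ i, 0 < G i (∑ j, w j) := by
      intro i
      rw [map_sum]
      apply Finset.sum_pos'
      · intro j _
        exact (mem_slice.1 (hw1 j)).2 i
      · exact ⟨i, Finset.mem_univ i,
          ((mem_slice.1 (hw1 i)).2 i).lt_of_ne (Ne.symm (hw3 i))⟩
    have hfb : f (∑ j, w j) = 0 := by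
      rw [map_sum]
      exact Finset.sum_eq_zero fun j _ => hw2 j
    set b := ∑ j, w j with hbdef
    apply hf0
    ext1 k
    ext
    set u : V := (LinearMap.single ℝ (fun _ : Fin 6 => ℝ) k) 1 with hu
    change f u = 0
    have h2 : ∀ᶠ t in 𝓝 (0 : ℝ), ∀ i, 0 < G i (b + t • u) := by
      rw [Filter.eventually_all]
      intro i
      have hc : ContinuousAt (fun t : ℝ => G i (b + t • u)) 0 :=
        ((continuous_lin (G i)).comp (by fun_prop)).continuousAt
      apply hc.eventually_const_lt
      simpa using hb i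
    obtain ⟨ε, hε, hball⟩ := Metric.eventually_nhds_iff.1 h2
    have h3 : ∀ t : ℝ, |t| < ε → ∃ c : ℝ, 0 < c ∧ c • (b + t • u) ∈ slice l0 P0 := by
      intro t ht
      have hpos := hball (y := t) (by rw [Real.dist_eq, sub_zero]; exact ht)
      have hl : 0 < l0 (b + t • u) := by
        apply l0_pos
        · exact v0_ne (i := 0) (hpos (Sum.inl 0)).ne'
        · exact fun i => (hpos (Sum.inl i)).le
      refine ⟨(l0 (b + t • u))⁻¹, by positivity, ?_⟩
      rw [mem_slice]
      refine ⟨?_, fun i => ?_⟩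
      · rw [map_smul, smul_eq_mul, inv_mul_cancel₀ hl.ne']
      · rw [map_smul, smul_eq_mul]
        exact mul_nonneg (by positivity) (hpos i).le
    have h4 : ∀ t : ℝ, f (b + t • u) = t * f u := by
      intro t; rw [map_add, hfb, map_smul, smul_eq_mul, zero_add]
    obtain ⟨c₁, hc₁, hm₁⟩ := h3 (ε / 2) (by rw [abs_of_pos (by linarith)]; linarith)
    obtain ⟨c₂, hc₂, hm₂⟩ := h3 (-(ε / 2)) (by rw [abs_neg, abs_of_pos (by linarith)]; linarith)
    have e1 : f (c₁ • (b + (ε / 2) • u)) = c₁ * (ε / 2) * f u := by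
      rw [map_smul, h4, smul_eq_mul]; ring
    have e2 : f (c₂ • (b + (-(ε / 2)) • u)) = -(c₂ * (ε / 2) * f u) := by
      rw [map_smul, h4, smul_eq_mul]; ring
    have hp1 : 0 < c₁ * (ε / 2) := by positivity
    have hp2 : 0 < c₂ * (ε / 2) := by positivity
    rcases hsign with hs | hs
    · have g1 := hs _ hm₁
      have g2 := hs _ hm₂
      rw [e1] at g1
      rw [e2] at g2
      have k1 : 0 ≤ f u := nonneg_of_mul_nonneg_right g1 hp1
      have k2 : f u ≤ 0 := by
        by_contra hh
        push Not at hh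
        have := mul_pos hp2 hh
        linarith
      exact le_antisymm k2 k1
    · have g1 := hs _ hm₁
      have g2 := hs _ hm₂
      rw [e1] at g1
      rw [e2] at g2
      have k1 : f u ≤ 0 := by
        by_contra hh
        push Not at hh
        have := mul_pos hp1 hh
        linarith
      have k2 : 0 ≤ f u := by
        by_contra hh
        push Not at hh
        have := mul_neg_of_pos_of_neg hp2 hh
        linarith
      exact le_antisymm k1 k2
  obtain ⟨i, hi⟩ := h1
  have h2 : LinearMap.ker f ≤ LinearMap.ker (G i) := by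
    rw [← hspan, Submodule.span_le]
    rintro v ⟨hv1, hv2⟩
    exact hi v hv1 hv2
  obtain ⟨u, hu⟩ : ∃ u, f u ≠ 0 := by
    by_contra hcon
    push Not at hcon
    exact hf0 (LinearMap.ext hcon)
  have h3 : ∀ v, G i v = (f v / f u) * G i u := by
    intro v
    have : v - (f v / f u) • u ∈ LinearMap.ker f := by
      rw [LinearMap.mem_ker, map_sub, map_smul, smul_eq_mul]
      field_simp
      ring
    have := h2 this
    rw [LinearMap.mem_ker, map_sub, map_smul, smul_eq_mul] at this
    linarith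
  have hGu : G i u ≠ 0 := by
    intro h0'
    apply G_ne_zero i
    ext1 k
    ext
    have := h3 ((LinearMap.single ℝ (fun _ : Fin 6 => ℝ) k) 1)
    rw [h0', mul_zero] at this
    exact this
  refine ⟨i, f u / G i u, ?_⟩
  apply LinearMap.ext
  intro v
  rw [LinearMap.smul_apply, h3 v, smul_eq_mul]
  field_simp

lemma arrangement_simple (s : Finset (Fin 6 ⊕ Fin 1)) (hs : s.card ≤ 6) :
    LinearIndependent ℝ (fun i : s => G i) := by
  rw [Fintype.linearIndependent_iff]
  intro c hc
  let c' : Fin 6 ⊕ Fin 1 → ℝ := fun j => if h : j ∈ s then c ⟨j, h⟩ else 0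
  have hsum : ∑ j, c' j • G j = 0 := by
    rw [← hc]
    have h1 : ∑ j, c' j • G j = ∑ j ∈ s, c' j • G j := by
      symm
      apply Finset.sum_subset (Finset.subset_univ s)
      intro j _ hj
      simp [c', hj]
    rw [h1, ← Finset.sum_coe_sort]
    refine Finset.sum_congr rfl fun j _ => ?_
    simp [c']
  have key : ∀ k : Fin 6, c' (Sum.inl k) + c' (Sum.inr 0) * h0 (ee k) = 0 := by
    intro k
    have := congrArg (fun g : V →ₗ[ℝ] ℝ => g (ee k)) hsum
    simp only [Fintype.sum_sum_type, LinearMap.add_apply, LinearMap.sum_apply,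
      LinearMap.smul_apply, smul_eq_mul, LinearMap.zero_apply, G_inl, G_inr] at this
    rw [Finset.sum_eq_single k] at this
    · simpa [ee] using this
    · intro j _ hj
      simp [ee, hj]
    · simp
  have hne : ∀ k : Fin 6, h0 (ee k) ≠ 0 := by
    apply forall_fin6 <;> rw [h0_apply] <;> simp [ee]
  have hr : c' (Sum.inr 0) = 0 := by
    by_contra hcon
    have hall : ∀ j, c' j ≠ 0 := by
      intro j
      rcases j with k | k
      · intro h
        have := key k
        rw [h, zero_add] at this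
        rcases mul_eq_zero.1 this with h' | h'
        · exact hcon h'
        · exact hne k h'
      · have : k = 0 := Subsingleton.elim _ _
        rw [this]; exact hcon
    have huniv : s = Finset.univ := by
      rw [Finset.eq_univ_iff_forall]
      intro j
      by_contra hj
      exact hall j (by simp [c', hj])
    rw [huniv] at hs
    simp at hs
  have hall : ∀ j, c' j = 0 := by
    intro j
    rcases j with k | k
    · have := key k
      rw [hr, zero_mul, add_zero] at this
      exact this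
    · have : k = 0 := Subsingleton.elim _ _
      rw [this]; exact hr
  intro i
  have := hall i
  simpa [c'] using this

theorem simplePolytope : IsSimplePolytope G P0 := by
  refine ⟨⟨l0, ⟨?_, ⟨_, slice_eq⟩, span_slice⟩, facetForm, facetForm_unique⟩,
    arrangement_simple⟩
  intro x hx
  obtain ⟨v, hv, rfl, hG⟩ := exists_nonneg_rep hx
  have h1 := l0_pos hv (fun i => hG (Sum.inl i))
  exact fun h => h1.ne' ((mem_hyperplane hv l0).1 h)

theorem positivePolytope : IsPositivePolytope 1 S0 := by
  refine ⟨fun _ => h0, P0, simplePolytope, ?_, rfl, isClosed_S0, S0_eq_closure, facetEquiv, ?_⟩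
  · intro x hx i j
    exact hx (Sum.inl i) (Sum.inl j)
  · intro i
    rw [facetEquiv_apply]
    refine ⟨⟨_, wit_mem_facet i⟩, (facet_subset i).trans ?_⟩
    revert i
    apply forall_idx <;> exact Set.inter_subset_right

/-- `p₁₂ > p₃₄` -/
lemma not_preconnected : ¬ IsPreconnected S0 := by
  intro hpre
  have hU := isOpen_prod (coord 0 - coord 5) l0
  have hV := isOpen_prod (coord 5 - coord 0) l0
  have hcov : S0 ⊆ {x : PP | 0 < (coord 0 - coord 5) x.rep * l0 x.rep} ∪
      {x : PP | 0 < (coord 5 - coord 0) x.rep * l0 x.rep} := by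
    intro x hx
    obtain ⟨v, hv, rfl, hG⟩ := exists_nonneg_rep hx.1
    have hp : plucker v = 0 := (mem_Gr hv).1 hx.2
    have h1 := l0_pos hv (fun i => hG (Sum.inl i))
    rcases lt_or_gt_of_ne (ne_of_nonneg hv hG hp) with h | h
    · right
      refine (prod_pos_iff hv _ _).2 (mul_pos ?_ h1)
      rw [LinearMap.sub_apply, coord_apply, coord_apply]; linarith
    · left
      refine (prod_pos_iff hv _ _).2 (mul_pos ?_ h1)
      rw [LinearMap.sub_apply, coord_apply, coord_apply]; linarith
  obtain ⟨x, hx, h1, h2⟩ := hpre _ _ hU hV hcov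
    ⟨pt (wit (Sum.inl 3)), Uset_subset _ (wit_mem _), by
      refine (prod_pos_iff (wit_ne _) _ _).2 ?_
      rw [LinearMap.sub_apply, coord_apply, coord_apply, l0_apply]
      simp [wit]; norm_num⟩
    ⟨pt (wit (Sum.inl 0)), Uset_subset _ (wit_mem _), by
      refine (prod_pos_iff (wit_ne _) _ _).2 ?_
      rw [LinearMap.sub_apply, coord_apply, coord_apply, l0_apply]
      simp [wit]; norm_num⟩
  have h1 : 0 < (coord 0 - coord 5) x.rep * l0 x.rep := h1
  have h2 : 0 < (coord 5 - coord 0) x.rep * l0 x.rep := h2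
  rw [LinearMap.sub_apply] at h1 h2
  nlinarith

end Q47.PosPoly
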