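import Pool.Agent.Q47.PosPoly.Cone

namespace Q47.PosPoly

open scoped LinearAlgebra.Projectivization Topology

/-- all seven forms -/
noncomputable def G : Fin 6 ⊕ Fin 1 → V →ₗ[ℝ] ℝ := Sum.elim coord (fun _ => h0)

/-- the polytope -/
def P0 : Set PP := {x | ∀ i j, 0 ≤ G i x.rep * G j x.rep}

/-- the positive polytope -/
def S0 : Set PP := P0 ∩ Gr

lemma mem_P0 {v : V} (hv : v ≠ 0) : pt v ∈ P0 ↔ ∀ i j, 0 ≤ G i v * G j v := by
  constructor
  · intro h i j
    exact (prod_nonneg_iff hv (G i) (G j)).1 (h i j)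
  · intro h i j
    exact (prod_nonneg_iff hv (G i) (G j)).2 (h i j)

lemma isClosed_P0 : IsClosed P0 := by
  have : P0 = ⋂ i, ⋂ j, {x : PP | 0 ≤ G i x.rep * G j x.rep} := by
    ext x
    simp only [Set.mem_iInter]
    rfl
  rw [this]
  exact isClosed_iInter fun i => isClosed_iInter fun j => isClosed_prod _ _

lemma isClosed_S0 : IsClosed S0 := isClosed_P0.inter isClosed_Gr

/-- nonnegative representatives -/
lemma exists_nonneg_rep {x : PP} (hx : x ∈ P0) :
    ∃ v : V, v ≠ 0 ∧ pt v = x ∧ ∀ i, 0 ≤ G i v := by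
  obtain ⟨k, hk⟩ : ∃ k, x.rep k ≠ 0 := by
    by_contra hcon
    push Not at hcon
    exact x.rep_nonzero (funext hcon)
  rcases lt_or_gt_of_ne hk with h | h
  · refine ⟨(-1 : ℝ) • x.rep, smul_ne_zero (by norm_num) x.rep_nonzero, ?_, ?_⟩
    · rw [pt_smul x.rep_nonzero (by norm_num), pt_rep]
    · intro i
      have h1 := hx (Sum.inl k) i
      change 0 ≤ x.rep k * G i x.rep at h1
      rw [map_smul, smul_eq_mul]
      nlinarith
  · refine ⟨x.rep, x.rep_nonzero, pt_rep x, ?_⟩
    intro i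
    have h1 := hx (Sum.inl k) i
    change 0 ≤ x.rep k * G i x.rep at h1
    exact nonneg_of_mul_nonneg_right h1 h

lemma mem_S0_of_nonneg {v : V} (hv : v ≠ 0) (h : ∀ i, 0 ≤ G i v) (hp : plucker v = 0) :
    pt v ∈ S0 :=
  ⟨(mem_P0 hv).2 fun i j => mul_nonneg (h i) (h j), (mem_Gr hv).2 hp⟩

lemma G_inl (i : Fin 6) (v : V) : G (Sum.inl i) v = v i := rfl

lemma G_inr (i : Fin 1) (v : V) : G (Sum.inr i) v = h0 v := rfl

lemma G_all {v : V} {p : ℝ → Prop} (hc : ∀ i : Fin 6, p (v i)) (hh : p (h0 v)) (i) :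
    p (G i v) := by
  rcases i with i | i
  · exact hc i
  · exact hh

/-- the key inequality -/
lemma ne_of_nonneg {v : V} (hv : v ≠ 0) (h : ∀ i, 0 ≤ G i v) (hp : plucker v = 0) :
    v 0 ≠ v 5 := by
  intro he
  have e0 := h (Sum.inl 0)
  have e1 := h (Sum.inl 1)
  have e2 := h (Sum.inl 2)
  have e3 := h (Sum.inl 3)
  have e4 := h (Sum.inl 4)
  have e5 := h (Sum.inl 5)
  have eh := h (Sum.inr 0)
  rw [G_inl] at e0 e1 e2 e3 e4 e5
  rw [G_inr, h0_apply] at eh
  unfold plucker at hp
  have h1 : v 0 * v 0 ≤ v 1 * v 4 := by rw [← he] at hp; nlinarith [mul_nonneg e3 e2]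
  have h2 : 5 * (v 1 + v 4) ≤ 8 * v 0 := by rw [← he] at eh; linarith
  have h3 : v 0 = 0 := by
    have h4 : 25 * (v 1 + v 4) ^ 2 ≤ 64 * v 0 ^ 2 := by nlinarith
    have h5 : 4 * (v 1 * v 4) ≤ (v 1 + v 4) ^ 2 := by nlinarith [sq_nonneg (v 1 - v 4)]
    have h6 : 36 * v 0 ^ 2 ≤ 0 := by nlinarith
    have h7 : v 0 ^ 2 = 0 := le_antisymm (by linarith) (sq_nonneg _)
    exact pow_eq_zero_iff (two_ne_zero) |>.1 h7
  apply hv
  have h5' : v 5 = 0 := by rw [← he]; exact h3
  rw [h3, h5'] at eh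
  apply fn_ext
  · exact h3
  · change v 1 = 0; linarith
  · change v 2 = 0; linarith
  · change v 3 = 0; linarith
  · change v 4 = 0; linarith
  · exact h5'

/-- strictly positive points are interior -/
lemma mem_relInt {v : V} (hv : v ≠ 0) (h : ∀ i, 0 < G i v) (hp : plucker v = 0) :
    pt v ∈ relInt Gr S0 := by
  refine ⟨(mem_Gr hv).2 hp, ⋂ i, ⋂ j, {x : PP | 0 < G i x.rep * G j x.rep}, ?_, ?_, ?_⟩
  · exact isOpen_iInter_of_finite fun i => isOpen_iInter_of_finite fun j => isOpen_prod _ _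
  · simp only [Set.mem_iInter]
    intro i j
    exact (prod_pos_iff hv _ _).2 (mul_pos (h i) (h j))
  · rintro x ⟨hx, hxG⟩
    simp only [Set.mem_iInter] at hx
    exact ⟨fun i j => (hx i j).le, hxG⟩

lemma v0_ne {v : V} {i : Fin 6} (h : v i ≠ 0) : v ≠ 0 := fun h' => h (by rw [h']; rfl)

lemma forall_fin6 {p : Fin 6 → Prop} (h0 : p 0) (h1 : p 1) (h2 : p 2) (h3 : p 3) (h4 : p 4)
    (h5 : p 5) (i : Fin 6) : p i := by
  fin_cases i
  · exact h0
  · exact h1
  · exact h2
  · exact h3
  · exact h4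
  · exact h5

/-- perturbation to strictly positive points -/
lemma closure_A {v : V} (hv : v ≠ 0) (h : ∀ i : Fin 6, 0 ≤ v i) (hh : 0 < h0 v)
    (hp : plucker v = 0) : pt v ∈ closure (relInt Gr S0) := by
  have key : ∀ (a b : ℝ → ℝ), Continuous a → Continuous b → a 0 = v 1 → b 0 = v 4 →
      (∀ t, 0 < t → 0 < a t) → (∀ t, 0 < t → 0 < b t) →
      (∀ t, 0 < t → a t * b t = (v 0 + t) * (v 5 + t) + (v 3 + t) * (v 2 + t)) →
      pt v ∈ closure (relInt Gr S0) := by
    intro a b ha hb ha0 hb0 hapos hbpos hab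
    let f : ℝ → V := fun t => ![v 0 + t, a t, v 2 + t, v 3 + t, b t, v 5 + t]
    have hf : Continuous f := by
      refine continuous_pi fun k => ?_
      fin_cases k <;> simp [f] <;> fun_prop
    have hf0 : f 0 = v := by
      apply fn_ext <;> simp [f, ha0, hb0]
    refine mem_closure_of_path hv f hf.continuousWithinAt hf0 ?_
    have hcont : Continuous fun t => h0 (f t) := (continuous_lin h0).comp hf
    have h1 : ∀ᶠ t in 𝓝[>] (0 : ℝ), 0 < h0 (f t) := by
      have : ∀ᶠ t in 𝓝 (0 : ℝ), 0 < h0 (f t) :=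
        hcont.continuousAt.eventually_const_lt (by show 0 < h0 (f 0); rw [hf0]; exact hh)
      exact this.filter_mono nhdsWithin_le_nhds
    filter_upwards [h1, self_mem_nhdsWithin] with t ht htp
    have htp : 0 < t := htp
    have hne : f t ≠ 0 := v0_ne (i := 1) (by simp [f]; exact (hapos t htp).ne')
    apply mem_relInt hne
    · apply G_all (p := fun x => 0 < x)
      · apply forall_fin6
        · simp [f]; linarith [h 0]
        · simp [f]; exact hapos t htp
        · simp [f]; linarith [h 2]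
        · simp [f]; linarith [h 3]
        · simp [f]; exact hbpos t htp
        · simp [f]; linarith [h 5]
      · exact ht
    · simp [plucker, f]
      linarith [hab t htp]
  have hN : ∀ t, 0 < t → 0 < (v 0 + t) * (v 5 + t) + (v 3 + t) * (v 2 + t) := by
    intro t ht
    have := h 0; have := h 5; have := h 3; have := h 2
    positivity
  have hN0 : v 0 * v 5 + v 3 * v 2 = v 1 * v 4 := by unfold plucker at hp; linarith
  rcases (h 1).eq_or_lt with h1 | h1
  · rcases (h 4).eq_or_lt with h4 | h4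
    · refine key (fun t => Real.sqrt ((v 0 + t) * (v 5 + t) + (v 3 + t) * (v 2 + t)))
        (fun t => Real.sqrt ((v 0 + t) * (v 5 + t) + (v 3 + t) * (v 2 + t)))
        (by fun_prop) (by fun_prop) ?_ ?_ ?_ ?_ ?_
      · simp only [add_zero]; rw [hN0, ← h1]; simp
      · simp only [add_zero]; rw [hN0, ← h4]; simp
      · intro t ht; exact Real.sqrt_pos.2 (hN t ht)
      · intro t ht; exact Real.sqrt_pos.2 (hN t ht)
      · intro t ht; exact Real.mul_self_sqrt (hN t ht).le
    · refine key (fun t => ((v 0 + t) * (v 5 + t) + (v 3 + t) * (v 2 + t)) / v 4)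
        (fun t => v 4) (by fun_prop) (by fun_prop) ?_ rfl ?_ (fun _ _ => h4) ?_
      · simp only [add_zero]; rw [hN0]; field_simp
      · intro t ht; exact div_pos (hN t ht) h4
      · intro t ht; field_simp
  · refine key (fun t => v 1) (fun t => ((v 0 + t) * (v 5 + t) + (v 3 + t) * (v 2 + t)) / v 1)
      (by fun_prop) (by fun_prop) rfl ?_ (fun _ _ => h1) ?_ ?_
    · simp only [add_zero]; rw [hN0]; field_simp
    · intro t ht; exact div_pos (hN t ht) h1
    · intro t ht; field_simp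

/-- scaling `p₁₂` up and `p₃₄` down -/
noncomputable def tor (v : V) (t : ℝ) : V := ![v 0 * (1 + t), v 1, v 2, v 3, v 4, v 5 / (1 + t)]

/-- scaling `p₁₂` down and `p₃₄` up -/
noncomputable def tor' (v : V) (t : ℝ) : V := ![v 0 / (1 + t), v 1, v 2, v 3, v 4, v 5 * (1 + t)]

lemma tor_zero (v : V) : tor v 0 = v := by apply fn_ext <;> simp [tor]

lemma tor'_zero (v : V) : tor' v 0 = v := by apply fn_ext <;> simp [tor']

lemma tor_cont (v : V) : ContinuousAt (tor v) 0 := by
  refine continuousAt_pi.2 fun k => ?_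
  fin_cases k <;> simp [tor] <;> fun_prop (disch := norm_num)

lemma tor'_cont (v : V) : ContinuousAt (tor' v) 0 := by
  refine continuousAt_pi.2 fun k => ?_
  fin_cases k <;> simp [tor'] <;> fun_prop (disch := norm_num)

lemma tor_plucker (v : V) {t : ℝ} (ht : 0 < t) : plucker (tor v t) = plucker v := by
  have : (1 + t) ≠ 0 := by positivity
  simp [plucker, tor]; field_simp

lemma tor'_plucker (v : V) {t : ℝ} (ht : 0 < t) : plucker (tor' v t) = plucker v := by
  have : (1 + t) ≠ 0 := by positivity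
  simp [plucker, tor']; field_simp

lemma tor_h0 (v : V) {t : ℝ} (ht : 0 < t) :
    h0 (tor v t) = h0 v + 4 * t * (v 0 - v 5 / (1 + t)) := by
  have : (1 + t) ≠ 0 := by positivity
  simp [h0_apply, tor]; field_simp; ring

lemma tor'_h0 (v : V) {t : ℝ} (ht : 0 < t) :
    h0 (tor' v t) = h0 v + 4 * t * (v 5 - v 0 / (1 + t)) := by
  have : (1 + t) ≠ 0 := by positivity
  simp [h0_apply, tor']; field_simp; ring

lemma tor_nonneg {v : V} (h : ∀ i : Fin 6, 0 ≤ v i) {t : ℝ} (ht : 0 < t) (i : Fin 6) :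
    0 ≤ tor v t i := by
  have := h 0; have := h 5
  revert i
  apply forall_fin6
  · simp [tor]; positivity
  · simp [tor]; exact h 1
  · simp [tor]; exact h 2
  · simp [tor]; exact h 3
  · simp [tor]; exact h 4
  · simp [tor]; positivity

lemma tor'_nonneg {v : V} (h : ∀ i : Fin 6, 0 ≤ v i) {t : ℝ} (ht : 0 < t) (i : Fin 6) :
    0 ≤ tor' v t i := by
  have := h 0; have := h 5
  revert i
  apply forall_fin6
  · simp [tor']; positivity
  · simp [tor']; exact h 1
  · simp [tor']; exact h 2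
  · simp [tor']; exact h 3
  · simp [tor']; exact h 4
  · simp [tor']; positivity

lemma S0_subset_closure : S0 ⊆ closure (relInt Gr S0) := by
  intro x hx
  obtain ⟨v, hv, rfl, hG⟩ := exists_nonneg_rep hx.1
  have hp : plucker v = 0 := (mem_Gr hv).1 hx.2
  have hc : ∀ i : Fin 6, 0 ≤ v i := fun i => hG (Sum.inl i)
  have hh : 0 ≤ h0 v := hG (Sum.inr 0)
  have hne := ne_of_nonneg hv hG hp
  rw [← closure_closure]
  rcases lt_or_gt_of_ne hne with hlt | hlt
  · refine mem_closure_of_path hv (tor' v) (tor'_cont v).continuousWithinAt (tor'_zero v) ?_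
    filter_upwards [self_mem_nhdsWithin] with t ht
    have ht : 0 < t := ht
    have h1 : v 0 / (1 + t) ≤ v 0 := div_le_self (hc 0) (by linarith)
    have h2 : 0 < h0 (tor' v t) := by
      rw [tor'_h0 v ht]
      have : 0 < 4 * t * (v 5 - v 0 / (1 + t)) := mul_pos (by linarith) (by linarith)
      linarith
    have hne' : tor' v t ≠ 0 := by
      intro h0'
      rw [h0', map_zero] at h2
      exact lt_irrefl _ h2
    exact closure_A hne' (tor'_nonneg hc ht) h2 (by rw [tor'_plucker v ht, hp])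
  · refine mem_closure_of_path hv (tor v) (tor_cont v).continuousWithinAt (tor_zero v) ?_
    filter_upwards [self_mem_nhdsWithin] with t ht
    have ht : 0 < t := ht
    have h1 : v 5 / (1 + t) ≤ v 5 := div_le_self (hc 5) (by linarith)
    have h2 : 0 < h0 (tor v t) := by
      rw [tor_h0 v ht]
      have : 0 < 4 * t * (v 0 - v 5 / (1 + t)) := mul_pos (by linarith) (by linarith)
      linarith
    have hne' : tor v t ≠ 0 := by
      intro h0'
      rw [h0', map_zero] at h2
      exact lt_irrefl _ h2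
    exact closure_A hne' (tor_nonneg hc ht) h2 (by rw [tor_plucker v ht, hp])

lemma S0_eq_closure : S0 = closure (relInt Gr S0) := by
  apply Set.Subset.antisymm S0_subset_closure
  apply closure_minimal _ isClosed_S0
  rintro x ⟨hx, U, _, hxU, hU⟩
  exact hU ⟨hxU, hx⟩

end Q47.PosPoly
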