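import Pool.Agent.Q47.PosPoly.Basic

namespace Q47.PosPoly

open scoped LinearAlgebra.Projectivization Topology
open MvPolynomial

lemma eval_smul_hom {f : MvPolynomial (Fin 6) ℝ} {d : ℕ} (hf : f.IsHomogeneous d) (c : ℝ)
    (v : V) : eval (c • v) f = c ^ d * eval v f := by
  rw [eval_eq', eval_eq', Finset.mul_sum]
  refine Finset.sum_congr rfl fun m hm => ?_
  have h1 : ∑ i, m i = d := by
    have := hf (mem_support_iff.1 hm)
    rw [← this, Finsupp.weight_apply, Finsupp.sum_fintype _ _ (by simp)]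
    simp
  simp only [Pi.smul_apply, smul_eq_mul, mul_pow, Finset.prod_mul_distrib]
  rw [Finset.prod_pow_eq_pow_sum, h1]
  ring

lemma eval_pt_iff {f : MvPolynomial (Fin 6) ℝ} {d : ℕ} (hf : f.IsHomogeneous d) {v : V}
    (hv : v ≠ 0) : eval (pt v).rep f = 0 ↔ eval v f = 0 := by
  obtain ⟨c, hc, hr⟩ := rep_pt hv
  rw [hr, eval_smul_hom hf]
  simp [hc]

/-- A polynomial parametrisation of (the cone over) `C`. -/
structure Param (C : Set PP) where
  /-- number of parameters -/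
  N : ℕ
  /-- the parametrisation -/
  Φ : Fin 6 → MvPolynomial (Fin N) ℝ
  mem : ∀ y : Fin N → ℝ, (fun k => eval y (Φ k)) ≠ 0 → pt (fun k => eval y (Φ k)) ∈ C
  surj : ∀ v : V, v ≠ 0 → pt v ∈ C → ∃ y : Fin N → ℝ, (fun k => eval y (Φ k)) = v

lemma eval_bind {N : ℕ} (Φ : Fin 6 → MvPolynomial (Fin N) ℝ) (f : MvPolynomial (Fin 6) ℝ)
    (y : Fin N → ℝ) : eval y (bind₁ Φ f) = eval (fun k => eval y (Φ k)) f := by
  have := eval₂Hom_bind₁ (RingHom.id ℝ) y Φ f
  exact this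

lemma exists_ne_zero {N : ℕ} {p : MvPolynomial (Fin N) ℝ} (hp : p ≠ 0) :
    ∃ y : Fin N → ℝ, eval y p ≠ 0 := by
  by_contra hcon
  push Not at hcon
  exact hp (MvPolynomial.funext (fun y => by rw [hcon y, map_zero]))

theorem Param.irreducible {C : Set PP} (P : Param C) (hC : IsZariskiClosed C)
    (hne : C.Nonempty) : IsZariskiIrreducible C := by
  refine ⟨hC, hne, ?_⟩
  rintro A B ⟨TA, hTA, rfl⟩ ⟨TB, hTB, rfl⟩ hAB
  by_contra hcon
  push Not at hcon
  obtain ⟨h1, h2⟩ := hcon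
  obtain ⟨x, hxC, hx⟩ := Set.not_subset.1 h1
  obtain ⟨x', hxC', hx'⟩ := Set.not_subset.1 h2
  have hx : ¬ ∀ f ∈ TA, eval x.rep f = 0 := hx
  have hx' : ¬ ∀ f ∈ TB, eval x'.rep f = 0 := hx'
  push Not at hx hx'
  obtain ⟨f, hfT, hf⟩ := hx
  obtain ⟨g, hgT, hg⟩ := hx'
  obtain ⟨y, hy⟩ := P.surj x.rep x.rep_nonzero (by rw [pt_rep]; exact hxC)
  obtain ⟨y', hy'⟩ := P.surj x'.rep x'.rep_nonzero (by rw [pt_rep]; exact hxC')
  have hF : bind₁ P.Φ f ≠ 0 := by
    intro h0
    apply hf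
    rw [← hy, ← eval_bind, h0, map_zero]
  have hG : bind₁ P.Φ g ≠ 0 := by
    intro h0
    apply hg
    rw [← hy', ← eval_bind, h0, map_zero]
  obtain ⟨k, hk⟩ : ∃ k, x.rep k ≠ 0 := by
    by_contra hcon
    push Not at hcon
    exact x.rep_nonzero (_root_.funext hcon)
  have hK : P.Φ k ≠ 0 := by
    intro h0
    apply hk
    rw [← hy]
    simp [h0]
  obtain ⟨z, hz⟩ := exists_ne_zero (mul_ne_zero (mul_ne_zero hF hG) hK)
  rw [map_mul, map_mul, eval_bind, eval_bind] at hz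
  have hz3 : eval z (P.Φ k) ≠ 0 := right_ne_zero_of_mul hz
  have hz1 := left_ne_zero_of_mul (left_ne_zero_of_mul hz)
  have hz2 := right_ne_zero_of_mul (left_ne_zero_of_mul hz)
  have hv : (fun k => eval z (P.Φ k)) ≠ 0 := fun h => hz3 (congrFun h k)
  rcases hAB (P.mem z hv) with h | h
  · have h' := h f hfT
    obtain ⟨d, hd⟩ := hTA f hfT
    exact hz1 ((eval_pt_iff hd hv).1 h')
  · have h' := h g hgT
    obtain ⟨d, hd⟩ := hTB g hgT
    exact hz2 ((eval_pt_iff hd hv).1 h')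

theorem Param.dense {C : Set PP} (P : Param C) {U X : Set PP} (hU : IsOpen U)
    (hne : (U ∩ C).Nonempty) (hX : IsZariskiClosed X) (hUX : U ∩ C ⊆ X) : C ⊆ X := by
  obtain ⟨T, hT, rfl⟩ := hX
  obtain ⟨x, hxU, hxC⟩ := hne
  obtain ⟨y, hy⟩ := P.surj x.rep x.rep_nonzero (by rw [pt_rep]; exact hxC)
  -- the open set of parameters
  let φ : (Fin P.N → ℝ) → V := fun y k => eval y (P.Φ k)
  have hφ : Continuous φ := continuous_pi fun k => MvPolynomial.continuous_eval (P.Φ k)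
  have hφy : φ y = x.rep := hy
  have hW : ∀ᶠ z in 𝓝 y, φ z ≠ 0 ∧ pt (φ z) ∈ U := by
    have h1 : ∀ᶠ z in 𝓝 y, φ z ≠ 0 := by
      have : φ y ≠ 0 := by rw [hφy]; exact x.rep_nonzero
      exact hφ.continuousAt.eventually_ne this
    have h2 : ContinuousAt (fun z => pt (φ z)) y := by
      have : ContinuousAt pt (φ y) := continuousAt_pt (by rw [hφy]; exact x.rep_nonzero)
      exact ContinuousAt.comp this hφ.continuousAt
    have h3 : ∀ᶠ z in 𝓝 y, pt (φ z) ∈ U := by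
      apply h2.eventually_mem
      apply hU.mem_nhds
      change pt (φ y) ∈ U
      rw [hφy, pt_rep]
      exact hxU
    exact h1.and h3
  obtain ⟨ε, hε, hball⟩ := Metric.eventually_nhds_iff.1 hW
  intro w hw f hf
  obtain ⟨d, hd⟩ := hT f hf
  have hzero : bind₁ P.Φ f = 0 := by
    apply MvPolynomial.funext_set (s := fun i => Set.Ioo (y i - ε) (y i + ε))
      (q := 0)
    · intro i
      exact Set.Ioo_infinite (by linarith)
    · intro z hz
      have hz' : dist z y < ε := by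
        rw [dist_pi_lt_iff hε]
        intro i
        have := hz i (Set.mem_univ i)
        rw [Real.dist_eq, abs_lt]
        constructor <;> linarith [this.1, this.2]
      obtain ⟨h1, h2⟩ := hball hz'
      have h3 := hUX ⟨h2, P.mem z h1⟩ f hf
      rw [map_zero, eval_bind]
      exact (eval_pt_iff hd h1).1 h3
  obtain ⟨y', hy'⟩ := P.surj w.rep w.rep_nonzero (by rw [pt_rep]; exact hw)
  rw [← hy', ← eval_bind, hzero, map_zero]

end Q47.PosPoly
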